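import Mathlib

set_option autoImplicit false

/-!
# Theta series of even unimodular lattices: definitions and jobs
-/

namespace Pool.Agent.R396.TL

open UpperHalfPlane hiding I
open Real EisensteinSeries ModularForm MatrixGroups
open scoped MatrixGroups ModularForm

noncomputable section

/-- the bilinear form with Gram matrix `G` -/
def bf {n : ℕ} (G : Matrix (Fin n) (Fin n) ℤ) (x y : Fin n → ℤ) : ℤ := ∑ i, ∑ j, x i * G i j * y j

/-- the real bilinear form with Gram matrix `G` -/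
def bfR {n : ℕ} (G : Matrix (Fin n) (Fin n) ℤ) (x y : Fin n → ℝ) : ℝ :=
  ∑ i, ∑ j, x i * (G i j : ℝ) * y j

/-- Gram matrix of an even unimodular positive definite lattice -/
structure Uni {n : ℕ} (G : Matrix (Fin n) (Fin n) ℤ) : Prop where
  symm : ∀ i j, G i j = G j i
  pos : ∀ x : Fin n → ℝ, x ≠ 0 → 0 < bfR G x x
  det : G.det = 1
  even : ∀ x : Fin n → ℤ, Even (bf G x x)

/-- J1: the form is bounded below by a multiple of the standard form. -/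
def JobLow : Prop := ∀ (n : ℕ) (G : Matrix (Fin n) (Fin n) ℤ),
  (∀ x : Fin n → ℝ, x ≠ 0 → 0 < bfR G x x) →
  ∃ ε : ℝ, 0 < ε ∧ ∀ x : Fin n → ℤ, ε * ∑ i, (x i : ℝ) ^ 2 ≤ (bf G x x : ℝ)

/-- J1: absolute convergence of all theta series. -/
def JobSum : Prop := ∀ (n : ℕ) (G : Matrix (Fin n) (Fin n) ℤ),
  (∀ x : Fin n → ℝ, x ≠ 0 → 0 < bfR G x x) → ∀ (v : Fin n → ℤ) (y R : ℝ), 0 < y →
  Summable fun x : Fin n → ℤ => Real.exp (-(π * y * bf G x x) + R * |(bf G x v : ℝ)|)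

/-- the Jacobi theta series of the lattice with Gram matrix `G` and the vector `v` -/
def Th {n : ℕ} (G : Matrix (Fin n) (Fin n) ℤ) (v : Fin n → ℤ) (τ z : ℂ) : ℂ :=
  ∑' x : Fin n → ℤ, Complex.exp (π * Complex.I * τ * bf G x x + 2 * π * Complex.I * z * bf G x v)

/-- J2: the inversion formula. -/
def JobTheta : Prop := ∀ (m : ℕ) (G : Matrix (Fin (8 * m)) (Fin (8 * m)) ℤ), Uni G →
  ∀ (v : Fin (8 * m) → ℤ) (τ : ℍ) (z : ℂ),
    Th G v (-1 / (τ : ℂ)) (z / τ) =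
      (τ : ℂ) ^ (4 * m) * Complex.exp (π * Complex.I * z ^ 2 * bf G v v / τ) * Th G v τ z

/-- `Σ_{(x, x) = 2 m} (x, v) ^ i` -/
def mom {n : ℕ} (G : Matrix (Fin n) (Fin n) ℤ) (v : Fin n → ℤ) (i m : ℕ) : ℝ :=
  ∑' x : Fin n → ℤ, if bf G x x = 2 * m then (bf G x v : ℝ) ^ i else 0

/-- `(2 j - 1)!! / (n (n + 2) ⋯ (n + 2 j - 2))` -/
def kap (n j : ℕ) : ℝ := ∏ i ∈ Finset.range j, ((2 * i + 1 : ℝ) / (n + 2 * i))

/-- J3: the design property of extremal lattices of rank `72`. -/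
def JobDesign : Prop := ∀ (G : Matrix (Fin 72) (Fin 72) ℤ), Uni G →
  (∀ x : Fin 72 → ℤ, x ≠ 0 → 8 ≤ bf G x x) →
  ∀ (v : Fin 72 → ℤ) (j m : ℕ), 1 ≤ j → j ≤ 5 →
    mom G v (2 * j) m = kap 72 j * (2 * m * bf G v v) ^ j * mom G v 0 m

/-- J4: generation by the vectors of norm `12` (Gram matrix version). -/
def JobGen : Prop := ∀ (G : Matrix (Fin 72) (Fin 72) ℤ), Uni G →
  (∀ x : Fin 72 → ℤ, x ≠ 0 → 8 ≤ bf G x x) → (∃ x : Fin 72 → ℤ, bf G x x = 8) →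
  Submodule.span ℤ {x : Fin 72 → ℤ | bf G x x = 12} = ⊤

/-- a Type II lattice of rank `n` in `ℝ^n` -/
structure IsTypeII {n : ℕ} (L : Submodule ℤ (EuclideanSpace ℝ (Fin n))) : Prop where
  basis : ∃ b : Module.Basis (Fin n) ℝ (EuclideanSpace ℝ (Fin n)),
    L = Submodule.span ℤ (Set.range b)
  dual : ∀ y, y ∈ L ↔ ∀ x ∈ L, ∃ m : ℤ, inner ℝ x y = (m : ℝ)
  even : ∀ x ∈ L, ∃ m : ℤ, inner ℝ x x = 2 * (m : ℝ)

/-- an extremal Type II lattice of rank `72` -/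
structure IsExtremal72 (L : Submodule ℤ (EuclideanSpace ℝ (Fin 72))) : Prop where
  typeII : IsTypeII L
  min : ∀ x ∈ L, x ≠ 0 → 8 ≤ inner ℝ x x
  attained : ∃ x ∈ L, inner ℝ x x = (8 : ℝ)

/-- J5: reduction of the geometric statement to Gram matrices. -/
def JobRed : Prop := JobGen → ∀ L : Submodule ℤ (EuclideanSpace ℝ (Fin 72)), IsExtremal72 L →
  Submodule.span ℤ {x | x ∈ L ∧ inner ℝ x x = (12 : ℝ)} = L

end

end Pool.Agent.R396.TL
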