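import Pool.Agent.R396.XQ.KK
import Pool.Agent.R396.TL.Stm

set_option autoImplicit false

/-!
# The design property from the modularity of the Taylor coefficients
-/

namespace Pool.Agent.R396.TL

open UpperHalfPlane hiding I
open Real EisensteinSeries ModularForm MatrixGroups
open scoped MatrixGroups ModularForm
open Pool.Agent.R396.QM Pool.Agent.R322.QD Pool.Agent.R396.XQ.KO

noncomputable section

namespace DE

/-- the Taylor coefficients -/
def comb (S : ℂ) (X : ℕ → PowerSeries ℂ) (j : ℕ) : PowerSeries ℂ :=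
  ∑ l ∈ Finset.range (j + 1), PowerSeries.C ((-S / 24) ^ l / (l.factorial : ℂ)) * e2 ^ l *
    (PowerSeries.C (1 / ((2 * (j - l)).factorial : ℂ)) * X (j - l))

theorem th_iter_succ (j : ℕ) (A : PowerSeries ℂ) : th^[j + 1] A = th (th^[j] A) :=
  Function.iterate_succ_apply' _ _ _

theorem coeff_th_iter (j n : ℕ) (A : PowerSeries ℂ) : (th^[j] A).coeff n = (n : ℂ) ^ j * A.coeff n := by
  induction j with
  | zero => simp
  | succ j ih => rw [th_iter_succ, coeff_th, ih, pow_succ]; ring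

/-- the expected value -/
def Xp (S : ℂ) (A : PowerSeries ℂ) (j : ℕ) : PowerSeries ℂ :=
  PowerSeries.C ((kap 72 j : ℂ) * (2 * S) ^ j) * th^[j] A

theorem Xp_zero (S : ℂ) (A : PowerSeries ℂ) : Xp S A 0 = A := by
  unfold Xp kap
  simp

/-- one induction step -/
theorem step (S : ℂ) (X : ℕ → PowerSeries ℂ)
    (h1 : ∀ n, 1 ≤ n → n ≤ 3 → (X 0).coeff n = 0)
    (h2 : ∀ i, 1 ≤ i → ∀ n ≤ 3, (X i).coeff n = 0) (j : ℕ) (hj : 1 ≤ j) (hj5 : j ≤ 5)
    (hprev : ∀ i, i < j → X i = Xp S (X 0) i)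
    (hf : ∃ f : ModularForm 𝒮ℒ (36 + 2 * j : ℤ), PS f (comb S X j))
    (hg : ∃ g : ModularForm 𝒮ℒ (36 + 2 * j : ℤ), PS g (comb S (Xp S (X 0)) j)) :
    X j = Xp S (X 0) j := by
  obtain ⟨f, hf⟩ := hf
  obtain ⟨g, hg⟩ := hg
  have hdiff : PS (fun τ => f τ - g τ) (comb S X j - comb S (Xp S (X 0)) j) := hf.sub hg
  have e : comb S X j - comb S (Xp S (X 0)) j =
      PowerSeries.C (1 / ((2 * j).factorial : ℂ)) * (X j - Xp S (X 0) j) := by
    unfold comb
    rw [Finset.sum_range_succ', Finset.sum_range_succ']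
    have : ∑ k ∈ Finset.range j, PowerSeries.C ((-S / 24) ^ (k + 1) / ((k + 1).factorial : ℂ)) *
        e2 ^ (k + 1) * (PowerSeries.C (1 / ((2 * (j - (k + 1))).factorial : ℂ)) * X (j - (k + 1))) =
        ∑ k ∈ Finset.range j, PowerSeries.C ((-S / 24) ^ (k + 1) / ((k + 1).factorial : ℂ)) *
        e2 ^ (k + 1) * (PowerSeries.C (1 / ((2 * (j - (k + 1))).factorial : ℂ)) *
          Xp S (X 0) (j - (k + 1))) := by
      refine Finset.sum_congr rfl fun k hk => ?_
      rw [hprev (j - (k + 1)) (by omega)]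
    rw [this]
    simp only [Nat.sub_zero, pow_zero, Nat.factorial_zero, Nat.cast_one, div_one, map_one, one_mul]
    ring
  rw [e] at hdiff
  have hz : ∀ n ≤ 3, (PowerSeries.C (1 / ((2 * j).factorial : ℂ)) * (X j - Xp S (X 0) j)).coeff n = 0 := by
    intro n hn
    rw [PowerSeries.coeff_C_mul, map_sub, h2 j hj n hn]
    unfold Xp
    rw [PowerSeries.coeff_C_mul, coeff_th_iter]
    rcases Nat.eq_zero_or_pos n with rfl | h
    · rw [Nat.cast_zero, zero_pow (by omega)]; ring
    · rw [h1 n h hn]; ring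
  have hfg : qExpansion 1 ((f - g : ModularForm 𝒮ℒ (36 + 2 * j : ℤ)) : ℍ → ℂ) =
      PowerSeries.C (1 / ((2 * j).factorial : ℂ)) * (X j - Xp S (X 0) j) :=
    (ps_form (f - g)).unique hdiff
  have h0 : (f - g).mcast (show (36 + 2 * j : ℤ) = ((36 + 2 * j : ℕ) : ℤ) by push_cast; ring) = 0 := by
    apply sturm_bound_levelOne_nat
    have h7 : ((4 : ℕ) : ℕ∞) ≤
        (qExpansion 1 ((f - g : ModularForm 𝒮ℒ (36 + 2 * j : ℤ)) : ℍ → ℂ)).order := by
      apply PowerSeries.nat_le_order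
      intro i hi
      rw [hfg]
      exact hz i (by omega)
    have h8 : (36 + 2 * j) / 12 = 3 := by omega
    rw [h8]
    refine lt_of_lt_of_le ?_ h7
    exact_mod_cast Nat.lt_succ_self _
  rw [ModularForm.mcast_eq_zero_iff] at h0
  have h9 := (ModularForm.qExpansion_eq_zero_iff one_pos one_mem_strictPeriods_SL (f - g)).2 h0
  rw [hfg] at h9
  have hC : PowerSeries.C (1 / ((2 * j).factorial : ℂ)) ≠ 0 := by
    intro h
    have := congrArg (PowerSeries.coeff 0) h
    rw [PowerSeries.coeff_zero_C] at this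
    have hf : ((2 * j).factorial : ℂ) ≠ 0 := by exact_mod_cast (2 * j).factorial_ne_zero
    simp [hf] at this
  exact sub_eq_zero.1 ((mul_eq_zero.1 h9).resolve_left hC)

/-! ### The Cohen-Kuznetsov forms -/

/-- the recursion for modular forms -/
theorem rec_form {w : ℤ} (k : ℕ) (hk : (k : ℤ) = w) (A B : PowerSeries ℂ) (c : ℂ)
    (hA : ∃ f : ModularForm 𝒮ℒ w, PS f A) (hB : ∃ g : ModularForm 𝒮ℒ (w - 2), PS g B) :
    ∃ h : ModularForm 𝒮ℒ (w + 2), PS h (12 * th A - (k : PowerSeries ℂ) * e2 * A +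
      PowerSeries.C c * (e4 * B)) := by
  obtain ⟨f, hf⟩ := hA
  obtain ⟨g, hg⟩ := hB
  obtain ⟨f1, hf1⟩ := Pool.Agent.R396.XQ.AS.serre_form f
  have h1 := serre_ps f f1 hf1
  have hfA : qExpansion 1 (f : ℍ → ℂ) = A := (ps_form f).unique hf
  rw [hfA] at h1
  have p1 := ((ps_form f1).cmul 12).add ((ps_E4.mul hg).cmul c)
  refine ⟨(12 : ℂ) • f1 + c • (E₄.mul g).mcast (by push_cast; ring), ?_⟩
  have e : (fun τ => 12 * f1 τ + c * (E₄ τ * g τ)) = (((12 : ℂ) • f1 +
      c • (E₄.mul g).mcast (by push_cast; ring) : ModularForm 𝒮ℒ (w + 2)) : ℍ → ℂ) := by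
    funext τ
    rfl
  rw [← e]
  have e12 : PowerSeries.C (12 : ℂ) = (12 : PowerSeries ℂ) := map_ofNat _ 12
  rw [e12] at p1
  have ew : PowerSeries.C (w : ℂ) = (k : PowerSeries ℂ) := by
    rw [← hk, Int.cast_natCast, map_natCast]
  rw [ew] at h1
  have : 12 * th A - (k : PowerSeries ℂ) * e2 * A + PowerSeries.C c * (e4 * B) =
      12 * qExpansion 1 (f1 : ℍ → ℂ) + PowerSeries.C c * (e4 * B) := by
    linear_combination h1
  rw [this]
  exact p1

section phi

variable (A : PowerSeries ℂ)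

/-- `12^j j! (36)_j` times the Cohen-Kuznetsov form of weight `36 + 2 j` -/
def Ph (A : PowerSeries ℂ) : ℕ → PowerSeries ℂ
  | 0 => A
  | 1 => 12 * th A - 36 * e2 * A
  | (j + 2) => 12 * th (Ph A (j + 1)) - ((36 + 2 * (j + 1) : ℕ) : PowerSeries ℂ) * e2 * Ph A (j + 1) +
      PowerSeries.C (-((j + 1) * (j + 36) : ℂ)) * (e4 * Ph A j)

theorem ph_form (hA : ∃ f : ModularForm 𝒮ℒ (36 : ℤ), PS f A) (j : ℕ) :
    (∃ f : ModularForm 𝒮ℒ (36 + 2 * j : ℤ), PS f (Ph A j)) ∧
    (∃ f : ModularForm 𝒮ℒ (36 + 2 * (j + 1) : ℤ), PS f (Ph A (j + 1))) := by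
  induction j with
  | zero =>
    refine ⟨?_, ?_⟩
    · simpa [Ph] using hA
    · have h0 : ∃ g : ModularForm 𝒮ℒ ((36 : ℤ) - 2), PS g 0 := ⟨0, fun τ => by simp⟩
      obtain ⟨f, hf⟩ := rec_form 36 (by norm_num) A 0 0 hA h0
      refine ⟨f.mcast (by norm_num), ?_⟩
      have : Ph A (0 + 1) = 12 * th A - ((36 : ℕ) : PowerSeries ℂ) * e2 * A +
          PowerSeries.C 0 * (e4 * 0) := by
        simp [Ph]
      rw [this]
      exact hf
  | succ j ih =>
    obtain ⟨⟨f0, hf0⟩, ⟨f1, hf1⟩⟩ := ih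
    refine ⟨⟨f1.mcast (by push_cast; ring), hf1⟩, ?_⟩
    obtain ⟨f, hf⟩ := rec_form (w := 36 + 2 * (j + 1)) (36 + 2 * (j + 1)) (by push_cast; ring)
      (Ph A (j + 1)) (Ph A j) (-((j + 1) * (j + 36) : ℂ)) ⟨f1, hf1⟩
      ⟨f0.mcast (by ring), hf0⟩
    refine ⟨f.mcast (by push_cast; ring), ?_⟩
    exact hf

end phi

theorem th_pow (x : PowerSeries ℂ) (n : ℕ) : th (x ^ (n + 1)) = (n + 1 : PowerSeries ℂ) * x ^ n * th x := by
  induction n with
  | zero => simp
  | succ n ih =>
    rw [pow_succ, th_mul, ih]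
    push_cast
    ring

theorem Ph_succ2 (A : PowerSeries ℂ) (j : ℕ) : Ph A (j + 2) = 12 * th (Ph A (j + 1)) -
    (36 + 2 * ((j : PowerSeries ℂ) + 1)) * e2 * Ph A (j + 1) -
      ((j : PowerSeries ℂ) + 1) * ((j : PowerSeries ℂ) + 36) * (e4 * Ph A j) := by
  have h : PowerSeries.C (-((j + 1) * (j + 36) : ℂ)) =
      -(((j : PowerSeries ℂ) + 1) * ((j : PowerSeries ℂ) + 36)) := by
    have e36 : PowerSeries.C (36 : ℂ) = (36 : PowerSeries ℂ) := map_ofNat _ 36
    rw [map_neg, map_mul, map_add, map_add, map_natCast, map_one, e36]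
  rw [Ph, h]
  push_cast
  ring

theorem ph1 (A : PowerSeries ℂ) : Ph A 1 = 12 * th^[1] A - 36 * e2 * th^[0] A := rfl

theorem ph2 (A : PowerSeries ℂ) : Ph A 2 = 144 * th^[2] A - 888 * e2 * th^[1] A + 1332 * e2 ^ 2 * th^[0] A := by
  have h5 := th_e2
  have t0 : th (th^[0] A) = th^[1] A := (th_iter_succ 0 A).symm
  have t1 : th (th^[1] A) = th^[2] A := (th_iter_succ 1 A).symm
  have z1 : th (12 : PowerSeries ℂ) = 0 := th_ofNat 12
  have z0 : th (36 : PowerSeries ℂ) = 0 := th_ofNat 36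
  have p1 : th (e2 ^ 2) = 2 * e2 * th e2 := by
    rw [th_pow]; push_cast; ring
  have p2 : th (e2 ^ 3) = 3 * e2 ^ 2 * th e2 := by
    rw [th_pow]; push_cast; ring
  have p3 : th (e2 ^ 4) = 4 * e2 ^ 3 * th e2 := by
    rw [th_pow]; push_cast; ring
  rw [Ph_succ2, ph1, show Ph A 0 = th^[0] A from rfl]
  simp only [th_add, th_sub, th_mul, p1, p2, p3, t0, t1, z1, z0]
  push_cast
  linear_combination ((-36) * th^[0] A) * h5

theorem ph3 (A : PowerSeries ℂ) : Ph A 3 = 1728 * th^[3] A - 16416 * e2 * th^[2] A + 50616 * e2 ^ 2 * th^[1] A - 50616 * e2 ^ 3 * th^[0] A := by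
  have h5 := th_e2
  have t0 : th (th^[0] A) = th^[1] A := (th_iter_succ 0 A).symm
  have t1 : th (th^[1] A) = th^[2] A := (th_iter_succ 1 A).symm
  have t2 : th (th^[2] A) = th^[3] A := (th_iter_succ 2 A).symm
  have z2 : th (144 : PowerSeries ℂ) = 0 := th_ofNat 144
  have z1 : th (888 : PowerSeries ℂ) = 0 := th_ofNat 888
  have z0 : th (1332 : PowerSeries ℂ) = 0 := th_ofNat 1332
  have p1 : th (e2 ^ 2) = 2 * e2 * th e2 := by
    rw [th_pow]; push_cast; ring
  have p2 : th (e2 ^ 3) = 3 * e2 ^ 2 * th e2 := by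
    rw [th_pow]; push_cast; ring
  have p3 : th (e2 ^ 4) = 4 * e2 ^ 3 * th e2 := by
    rw [th_pow]; push_cast; ring
  rw [Ph_succ2, ph2, ph1]
  simp only [th_add, th_sub, th_mul, p1, p2, p3, t0, t1, t2, z2, z1, z0]
  push_cast
  linear_combination ((-888) * th^[1] A + (2664) * e2 * th^[0] A) * h5

theorem ph4 (A : PowerSeries ℂ) : Ph A 4 = 20736 * th^[4] A - 269568 * e2 * th^[3] A + 1280448 * e2 ^ 2 * th^[2] A - 2632032 * e2 ^ 3 * th^[1] A + 1974024 * e2 ^ 4 * th^[0] A := by
  have h5 := th_e2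
  have t0 : th (th^[0] A) = th^[1] A := (th_iter_succ 0 A).symm
  have t1 : th (th^[1] A) = th^[2] A := (th_iter_succ 1 A).symm
  have t2 : th (th^[2] A) = th^[3] A := (th_iter_succ 2 A).symm
  have t3 : th (th^[3] A) = th^[4] A := (th_iter_succ 3 A).symm
  have z3 : th (1728 : PowerSeries ℂ) = 0 := th_ofNat 1728
  have z2 : th (16416 : PowerSeries ℂ) = 0 := th_ofNat 16416
  have z1 : th (50616 : PowerSeries ℂ) = 0 := th_ofNat 50616
  have z0 : th (50616 : PowerSeries ℂ) = 0 := th_ofNat 50616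
  have p1 : th (e2 ^ 2) = 2 * e2 * th e2 := by
    rw [th_pow]; push_cast; ring
  have p2 : th (e2 ^ 3) = 3 * e2 ^ 2 * th e2 := by
    rw [th_pow]; push_cast; ring
  have p3 : th (e2 ^ 4) = 4 * e2 ^ 3 * th e2 := by
    rw [th_pow]; push_cast; ring
  rw [Ph_succ2, ph3, ph2]
  simp only [th_add, th_sub, th_mul, p1, p2, p3, t0, t1, t2, t3, z3, z2, z1, z0]
  push_cast
  linear_combination ((-16416) * th^[2] A + (101232) * e2 * th^[1] A + (-151848) * e2 ^ 2 * th^[0] A) * h5

theorem ph5 (A : PowerSeries ℂ) : Ph A 5 = 248832 * th^[5] A - 4147200 * e2 * th^[4] A + 26956800 * e2 ^ 2 * th^[3] A - 85363200 * e2 ^ 3 * th^[2] A + 131601600 * e2 ^ 4 * th^[1] A - 78960960 * e2 ^ 5 * th^[0] A := by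
  have h5 := th_e2
  have t0 : th (th^[0] A) = th^[1] A := (th_iter_succ 0 A).symm
  have t1 : th (th^[1] A) = th^[2] A := (th_iter_succ 1 A).symm
  have t2 : th (th^[2] A) = th^[3] A := (th_iter_succ 2 A).symm
  have t3 : th (th^[3] A) = th^[4] A := (th_iter_succ 3 A).symm
  have t4 : th (th^[4] A) = th^[5] A := (th_iter_succ 4 A).symm
  have z4 : th (20736 : PowerSeries ℂ) = 0 := th_ofNat 20736
  have z3 : th (269568 : PowerSeries ℂ) = 0 := th_ofNat 269568
  have z2 : th (1280448 : PowerSeries ℂ) = 0 := th_ofNat 1280448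
  have z1 : th (2632032 : PowerSeries ℂ) = 0 := th_ofNat 2632032
  have z0 : th (1974024 : PowerSeries ℂ) = 0 := th_ofNat 1974024
  have p1 : th (e2 ^ 2) = 2 * e2 * th e2 := by
    rw [th_pow]; push_cast; ring
  have p2 : th (e2 ^ 3) = 3 * e2 ^ 2 * th e2 := by
    rw [th_pow]; push_cast; ring
  have p3 : th (e2 ^ 4) = 4 * e2 ^ 3 * th e2 := by
    rw [th_pow]; push_cast; ring
  rw [Ph_succ2, ph4, ph3]
  simp only [th_add, th_sub, th_mul, p1, p2, p3, t0, t1, t2, t3, t4, z4, z3, z2, z1, z0]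
  push_cast
  linear_combination ((-269568) * th^[3] A + (2560896) * e2 * th^[2] A + (-7896096) * e2 ^ 2 * th^[1] A + (7896096) * e2 ^ 3 * th^[0] A) * h5

/-- the numerical coefficients -/
def al (S : ℂ) (j l : ℕ) : ℂ :=
  (-S / 24) ^ l / (l.factorial : ℂ) * (1 / ((2 * (j - l)).factorial : ℂ)) *
    ((kap 72 (j - l) : ℂ) * (2 * S) ^ (j - l))

theorem comb_Xp (S : ℂ) (A : PowerSeries ℂ) (j : ℕ) : comb S (Xp S A) j =
    ∑ l ∈ Finset.range (j + 1), PowerSeries.C (al S j l) * (e2 ^ l * th^[j - l] A) := by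
  unfold comb Xp al
  refine Finset.sum_congr rfl fun l _ => ?_
  have key : ∀ (a b c : ℂ) (e T : PowerSeries ℂ), PowerSeries.C a * e *
      (PowerSeries.C b * (PowerSeries.C c * T)) = PowerSeries.C (a * b * c) * (e * T) := by
    intro a b c e T
    rw [map_mul, map_mul]
    ring
  exact key _ _ _ _ _

/-- the normalising constants -/
def lam (S : ℂ) (j : ℕ) : ℂ :=
  (S / 2) ^ j / (12 ^ j * (j.factorial : ℂ) * ∏ i ∈ Finset.range j, (36 + (i : ℂ)))

theorem comb0 (S : ℂ) (A : PowerSeries ℂ) : comb S (Xp S A) 0 = PowerSeries.C (lam S 0) * Ph A 0 := by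
  have e0 : al S 0 0 = lam S 0 * (1) := by
    unfold al lam kap
    norm_num [Finset.prod_range_succ, Nat.factorial]
    try ring
  have c0 : PowerSeries.C (1 : ℂ) = 1 := map_one _
  rw [comb_Xp, show Ph A 0 = th^[0] A from rfl]
  simp only [Finset.sum_range_succ, Finset.sum_range_zero, zero_add, Nat.sub_self, Nat.sub_zero, Nat.reduceSub]
  rw [e0]
  simp only [map_mul, c0]
  ring

theorem comb1 (S : ℂ) (A : PowerSeries ℂ) : comb S (Xp S A) 1 = PowerSeries.C (lam S 1) * Ph A 1 := by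
  have e0 : al S 1 0 = lam S 1 * (12) := by
    unfold al lam kap
    norm_num [Finset.prod_range_succ, Nat.factorial]
    try ring
  have c0 : PowerSeries.C (12 : ℂ) = 12 := map_ofNat _ 12
  have e1 : al S 1 1 = lam S 1 * (-36) := by
    unfold al lam kap
    norm_num [Finset.prod_range_succ, Nat.factorial]
    try ring
  have c1 : PowerSeries.C (-36 : ℂ) = -36 := by
    rw [map_neg]; exact congrArg Neg.neg (map_ofNat _ 36)
  rw [comb_Xp, ph1]
  simp only [Finset.sum_range_succ, Finset.sum_range_zero, zero_add, Nat.sub_self, Nat.sub_zero, Nat.reduceSub]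
  rw [e0, e1]
  simp only [map_mul, c0, c1]
  ring

theorem comb2 (S : ℂ) (A : PowerSeries ℂ) : comb S (Xp S A) 2 = PowerSeries.C (lam S 2) * Ph A 2 := by
  have e0 : al S 2 0 = lam S 2 * (144) := by
    unfold al lam kap
    norm_num [Finset.prod_range_succ, Nat.factorial]
    try ring
  have c0 : PowerSeries.C (144 : ℂ) = 144 := map_ofNat _ 144
  have e1 : al S 2 1 = lam S 2 * (-888) := by
    unfold al lam kap
    norm_num [Finset.prod_range_succ, Nat.factorial]
    try ring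
  have c1 : PowerSeries.C (-888 : ℂ) = -888 := by
    rw [map_neg]; exact congrArg Neg.neg (map_ofNat _ 888)
  have e2 : al S 2 2 = lam S 2 * (1332) := by
    unfold al lam kap
    norm_num [Finset.prod_range_succ, Nat.factorial]
    try ring
  have c2 : PowerSeries.C (1332 : ℂ) = 1332 := map_ofNat _ 1332
  rw [comb_Xp, ph2]
  simp only [Finset.sum_range_succ, Finset.sum_range_zero, zero_add, Nat.sub_self, Nat.sub_zero, Nat.reduceSub]
  rw [e0, e1, e2]
  simp only [map_mul, c0, c1, c2]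
  ring

theorem comb3 (S : ℂ) (A : PowerSeries ℂ) : comb S (Xp S A) 3 = PowerSeries.C (lam S 3) * Ph A 3 := by
  have e0 : al S 3 0 = lam S 3 * (1728) := by
    unfold al lam kap
    norm_num [Finset.prod_range_succ, Nat.factorial]
    try ring
  have c0 : PowerSeries.C (1728 : ℂ) = 1728 := map_ofNat _ 1728
  have e1 : al S 3 1 = lam S 3 * (-16416) := by
    unfold al lam kap
    norm_num [Finset.prod_range_succ, Nat.factorial]
    try ring
  have c1 : PowerSeries.C (-16416 : ℂ) = -16416 := by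
    rw [map_neg]; exact congrArg Neg.neg (map_ofNat _ 16416)
  have e2 : al S 3 2 = lam S 3 * (50616) := by
    unfold al lam kap
    norm_num [Finset.prod_range_succ, Nat.factorial]
    try ring
  have c2 : PowerSeries.C (50616 : ℂ) = 50616 := map_ofNat _ 50616
  have e3 : al S 3 3 = lam S 3 * (-50616) := by
    unfold al lam kap
    norm_num [Finset.prod_range_succ, Nat.factorial]
    try ring
  have c3 : PowerSeries.C (-50616 : ℂ) = -50616 := by
    rw [map_neg]; exact congrArg Neg.neg (map_ofNat _ 50616)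
  rw [comb_Xp, ph3]
  simp only [Finset.sum_range_succ, Finset.sum_range_zero, zero_add, Nat.sub_self, Nat.sub_zero, Nat.reduceSub]
  rw [e0, e1, e2, e3]
  simp only [map_mul, c0, c1, c2, c3]
  ring

theorem comb4 (S : ℂ) (A : PowerSeries ℂ) : comb S (Xp S A) 4 = PowerSeries.C (lam S 4) * Ph A 4 := by
  have e0 : al S 4 0 = lam S 4 * (20736) := by
    unfold al lam kap
    norm_num [Finset.prod_range_succ, Nat.factorial]
    try ring
  have c0 : PowerSeries.C (20736 : ℂ) = 20736 := map_ofNat _ 20736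
  have e1 : al S 4 1 = lam S 4 * (-269568) := by
    unfold al lam kap
    norm_num [Finset.prod_range_succ, Nat.factorial]
    try ring
  have c1 : PowerSeries.C (-269568 : ℂ) = -269568 := by
    rw [map_neg]; exact congrArg Neg.neg (map_ofNat _ 269568)
  have e2 : al S 4 2 = lam S 4 * (1280448) := by
    unfold al lam kap
    norm_num [Finset.prod_range_succ, Nat.factorial]
    try ring
  have c2 : PowerSeries.C (1280448 : ℂ) = 1280448 := map_ofNat _ 1280448
  have e3 : al S 4 3 = lam S 4 * (-2632032) := by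
    unfold al lam kap
    norm_num [Finset.prod_range_succ, Nat.factorial]
    try ring
  have c3 : PowerSeries.C (-2632032 : ℂ) = -2632032 := by
    rw [map_neg]; exact congrArg Neg.neg (map_ofNat _ 2632032)
  have e4 : al S 4 4 = lam S 4 * (1974024) := by
    unfold al lam kap
    norm_num [Finset.prod_range_succ, Nat.factorial]
    try ring
  have c4 : PowerSeries.C (1974024 : ℂ) = 1974024 := map_ofNat _ 1974024
  rw [comb_Xp, ph4]
  simp only [Finset.sum_range_succ, Finset.sum_range_zero, zero_add, Nat.sub_self, Nat.sub_zero, Nat.reduceSub]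
  rw [e0, e1, e2, e3, e4]
  simp only [map_mul, c0, c1, c2, c3, c4]
  ring

theorem comb5 (S : ℂ) (A : PowerSeries ℂ) : comb S (Xp S A) 5 = PowerSeries.C (lam S 5) * Ph A 5 := by
  have e0 : al S 5 0 = lam S 5 * (248832) := by
    unfold al lam kap
    norm_num [Finset.prod_range_succ, Nat.factorial]
    try ring
  have c0 : PowerSeries.C (248832 : ℂ) = 248832 := map_ofNat _ 248832
  have e1 : al S 5 1 = lam S 5 * (-4147200) := by
    unfold al lam kap
    norm_num [Finset.prod_range_succ, Nat.factorial]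
    try ring
  have c1 : PowerSeries.C (-4147200 : ℂ) = -4147200 := by
    rw [map_neg]; exact congrArg Neg.neg (map_ofNat _ 4147200)
  have e2 : al S 5 2 = lam S 5 * (26956800) := by
    unfold al lam kap
    norm_num [Finset.prod_range_succ, Nat.factorial]
    try ring
  have c2 : PowerSeries.C (26956800 : ℂ) = 26956800 := map_ofNat _ 26956800
  have e3 : al S 5 3 = lam S 5 * (-85363200) := by
    unfold al lam kap
    norm_num [Finset.prod_range_succ, Nat.factorial]
    try ring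
  have c3 : PowerSeries.C (-85363200 : ℂ) = -85363200 := by
    rw [map_neg]; exact congrArg Neg.neg (map_ofNat _ 85363200)
  have e4 : al S 5 4 = lam S 5 * (131601600) := by
    unfold al lam kap
    norm_num [Finset.prod_range_succ, Nat.factorial]
    try ring
  have c4 : PowerSeries.C (131601600 : ℂ) = 131601600 := map_ofNat _ 131601600
  have e5 : al S 5 5 = lam S 5 * (-78960960) := by
    unfold al lam kap
    norm_num [Finset.prod_range_succ, Nat.factorial]
    try ring
  have c5 : PowerSeries.C (-78960960 : ℂ) = -78960960 := by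
    rw [map_neg]; exact congrArg Neg.neg (map_ofNat _ 78960960)
  rw [comb_Xp, ph5]
  simp only [Finset.sum_range_succ, Finset.sum_range_zero, zero_add, Nat.sub_self, Nat.sub_zero, Nat.reduceSub]
  rw [e0, e1, e2, e3, e4, e5]
  simp only [map_mul, c0, c1, c2, c3, c4, c5]
  ring

/-- the design property for the generating series -/
theorem design (S : ℂ) (X : ℕ → PowerSeries ℂ)
    (h1 : ∀ n, 1 ≤ n → n ≤ 3 → (X 0).coeff n = 0)
    (h2 : ∀ i, 1 ≤ i → ∀ n ≤ 3, (X i).coeff n = 0)
    (hm : ∀ j : ℕ, j ≤ 5 → ∃ f : ModularForm 𝒮ℒ (36 + 2 * j : ℤ), PS f (comb S X j)) :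
    ∀ j : ℕ, j ≤ 5 → X j = Xp S (X 0) j := by
  have hX0 : ∃ f : ModularForm 𝒮ℒ (36 : ℤ), PS f (X 0) := by
    obtain ⟨f, hf⟩ := hm 0 (by norm_num)
    refine ⟨f.mcast (by norm_num), ?_⟩
    have : comb S X 0 = X 0 := by
      unfold comb
      simp
    rw [this] at hf
    exact hf
  have hph : ∀ j : ℕ, j ≤ 5 → ∃ g : ModularForm 𝒮ℒ (36 + 2 * j : ℤ), PS g (comb S (Xp S (X 0)) j) := by
    intro j hj
    obtain ⟨g, hg⟩ := (ph_form (X 0) hX0 j).1
    refine ⟨lam S j • g, ?_⟩
    have hc : comb S (Xp S (X 0)) j = PowerSeries.C (lam S j) * Ph (X 0) j := by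
      interval_cases j
      · exact comb0 S (X 0)
      · exact comb1 S (X 0)
      · exact comb2 S (X 0)
      · exact comb3 S (X 0)
      · exact comb4 S (X 0)
      · exact comb5 S (X 0)
    rw [hc]
    exact hg.cmul (lam S j)
  intro j
  induction j using Nat.strong_induction_on with | _ j ih =>
  intro hj
  rcases Nat.eq_zero_or_pos j with rfl | h
  · exact (Xp_zero S (X 0)).symm
  · exact step S X h1 h2 j h hj (fun i hi => ih i hi (by omega)) (hm j hj) (hph j hj)

end DE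

end

end Pool.Agent.R396.TL
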