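import Mathlib
import Pool.Agent.R396.TL.Stm

/-! # Generation by norm 12 vectors from the design property (helper784) -/

set_option autoImplicit false

namespace Pool.Agent.R396.TL

namespace GE

open Finset

variable {n : ℕ} {G : Matrix (Fin n) (Fin n) ℤ}

lemma bf_add_left (G : Matrix (Fin n) (Fin n) ℤ) (x y z : Fin n → ℤ) :
    bf G (x + y) z = bf G x z + bf G y z := by
  simp only [bf, Pi.add_apply, add_mul, Finset.sum_add_distrib]

lemma bf_neg_left (G : Matrix (Fin n) (Fin n) ℤ) (x z : Fin n → ℤ) :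
    bf G (-x) z = - bf G x z := by
  simp only [bf, Pi.neg_apply, neg_mul, Finset.sum_neg_distrib]

lemma bf_symm (hG : ∀ i j, G i j = G j i) (x y : Fin n → ℤ) : bf G x y = bf G y x := by
  unfold bf
  rw [Finset.sum_comm]
  refine Finset.sum_congr rfl fun i _ => Finset.sum_congr rfl fun j _ => ?_
  rw [hG j i]; ring

lemma bf_add_add (hG : ∀ i j, G i j = G j i) (x y : Fin n → ℤ) :
    bf G (x + y) (x + y) = bf G x x + 2 * bf G x y + bf G y y := by
  rw [bf_add_left, bf_symm hG x (x + y), bf_symm hG y (x + y), bf_add_left, bf_add_left,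
    bf_symm hG y x]
  ring

lemma bf_sub_sub (hG : ∀ i j, G i j = G j i) (x y : Fin n → ℤ) :
    bf G (x - y) (x - y) = bf G x x - 2 * bf G x y + bf G y y := by
  rw [sub_eq_add_neg, bf_add_add hG, bf_symm hG x (-y), bf_neg_left, bf_neg_left,
    bf_symm hG y (-y), bf_neg_left, bf_symm hG y x]
  ring

lemma bf_zero (G : Matrix (Fin n) (Fin n) ℤ) (z : Fin n → ℤ) : bf G 0 z = 0 := by
  simp [bf]

lemma finite_of_low {ε : ℝ} (hε : 0 < ε)
    (h : ∀ x : Fin n → ℤ, ε * ∑ i, (x i : ℝ) ^ 2 ≤ (bf G x x : ℝ)) (m : ℤ) :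
    {x : Fin n → ℤ | bf G x x = m}.Finite := by
  obtain ⟨N, hN⟩ := exists_nat_ge ((m : ℝ) / ε)
  refine Set.Finite.subset (Set.finite_Icc (fun _ : Fin n => -(N : ℤ)) (fun _ => (N : ℤ))) ?_
  intro x hx
  have hx' : bf G x x = m := hx
  have key : ∀ i, |x i| ≤ (N : ℤ) := by
    intro i
    have h1 := h x
    rw [hx'] at h1
    have h2 : (x i : ℝ) ^ 2 ≤ ∑ i, (x i : ℝ) ^ 2 :=
      Finset.single_le_sum (f := fun i => (x i : ℝ) ^ 2) (fun _ _ => sq_nonneg _) (Finset.mem_univ i)
    have h3 : (x i : ℝ) ^ 2 ≤ N := by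
      refine le_trans ?_ hN
      rw [le_div_iff₀ hε]
      nlinarith
    have h4 : (x i) ^ 2 ≤ (N : ℤ) := by exact_mod_cast h3
    have h5 : |x i| ≤ |x i| ^ 2 := by
      have h6 : 0 ≤ |x i| := abs_nonneg _
      rcases h6.eq_or_lt with h7 | h7
      · rw [← h7]; norm_num
      · nlinarith
    rw [sq_abs] at h5
    exact h5.trans h4
  rw [Set.mem_Icc]
  exact ⟨fun i => (abs_le.1 (key i)).1, fun i => (abs_le.1 (key i)).2⟩

lemma mom_eq {F : Finset (Fin n → ℤ)} {m : ℕ} (hF : ∀ x, x ∈ F ↔ bf G x x = 2 * m)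
    (v : Fin n → ℤ) (i : ℕ) : mom G v i m = ∑ x ∈ F, (bf G x v : ℝ) ^ i := by
  unfold mom
  rw [tsum_eq_sum (s := F)]
  · refine Finset.sum_congr rfl fun x hx => ?_
    rw [if_pos ((hF x).1 hx)]
  · intro x hx
    rw [if_neg fun h => hx ((hF x).2 h)]

/-- the design property for an even polynomial without constant term. -/
lemma design_sum (hD : JobDesign) {G : Matrix (Fin 72) (Fin 72) ℤ} (hU : Uni G)
    (hmin : ∀ x : Fin 72 → ℤ, x ≠ 0 → 8 ≤ bf G x x) {F : Finset (Fin 72 → ℤ)} {m : ℕ}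
    (hF : ∀ x, x ∈ F ↔ bf G x x = 2 * m) (v : Fin 72 → ℤ) (p1 p2 p3 p4 p5 : ℝ) :
    ∑ x ∈ F, (p1 * (bf G x v : ℝ) ^ 2 + p2 * (bf G x v : ℝ) ^ 4 + p3 * (bf G x v : ℝ) ^ 6 +
      p4 * (bf G x v : ℝ) ^ 8 + p5 * (bf G x v : ℝ) ^ 10) =
    (F.card : ℝ) * (p1 * (1 / 72) * (2 * m * bf G v v) +
      p2 * (1 / 1776) * (2 * m * bf G v v) ^ 2 +
      p3 * (5 / 134976) * (2 * m * bf G v v) ^ 3 + p4 * (35 / 10528128) * (2 * m * bf G v v) ^ 4 +
      p5 * (7 / 18716672) * (2 * m * bf G v v) ^ 5) := by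
  have hc : mom G v 0 m = (F.card : ℝ) := by
    rw [mom_eq hF]; simp
  have h := fun j h1 h2 => hD G hU hmin v j m h1 h2
  have k1 := h 1 (by norm_num) (by norm_num)
  have k2 := h 2 (by norm_num) (by norm_num)
  have k3 := h 3 (by norm_num) (by norm_num)
  have k4 := h 4 (by norm_num) (by norm_num)
  have k5 := h 5 (by norm_num) (by norm_num)
  rw [mom_eq hF, hc] at k1 k2 k3 k4 k5
  have e1 : kap 72 1 = 1 / 72 := by simp [kap]
  have e2 : kap 72 2 = 1 / 1776 := by simp [kap, Finset.prod_range_succ]; norm_num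
  have e3 : kap 72 3 = 5 / 134976 := by simp [kap, Finset.prod_range_succ]; norm_num
  have e4 : kap 72 4 = 35 / 10528128 := by simp [kap, Finset.prod_range_succ]; norm_num
  have e5 : kap 72 5 = 7 / 18716672 := by simp [kap, Finset.prod_range_succ]; norm_num
  rw [e1] at k1
  rw [e2] at k2
  rw [e3] at k3
  rw [e4] at k4
  rw [e5] at k5
  norm_num at k1 k2 k3 k4 k5
  rw [Finset.sum_add_distrib, Finset.sum_add_distrib, Finset.sum_add_distrib,
    Finset.sum_add_distrib, ← Finset.mul_sum, ← Finset.mul_sum, ← Finset.mul_sum,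
    ← Finset.mul_sum, ← Finset.mul_sum, k1, k2, k3, k4, k5]
  ring

end GE

open GE in
theorem jobGen (hL : JobLow) (hD : JobDesign) : JobGen := by
  intro G hU hmin hex
  obtain ⟨ε, hε, hlow⟩ := hL 72 G hU.pos
  have hfin := finite_of_low hε hlow
  have hsym := hU.symm
  set F8 : Finset (Fin 72 → ℤ) := (hfin 8).toFinset with hF8
  set F12 : Finset (Fin 72 → ℤ) := (hfin 12).toFinset with hF12
  have m8 : ∀ x, x ∈ F8 ↔ bf G x x = 8 := fun x => by rw [hF8, Set.Finite.mem_toFinset]; rfl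
  have m12 : ∀ x, x ∈ F12 ↔ bf G x x = 12 := fun x => by rw [hF12, Set.Finite.mem_toFinset]; rfl
  have m8' : ∀ x, x ∈ F8 ↔ bf G x x = 2 * ((4 : ℕ) : ℤ) := fun x => by rw [m8]; norm_num
  have m12' : ∀ x, x ∈ F12 ↔ bf G x x = 2 * ((6 : ℕ) : ℤ) := fun x => by rw [m12]; norm_num
  obtain ⟨x8, hx8⟩ := hex
  have c8 : (0 : ℝ) < F8.card := by
    exact_mod_cast Finset.card_pos.2 ⟨x8, (m8 x8).2 hx8⟩
  -- the minimum
  have hmin0 : ∀ x : Fin 72 → ℤ, bf G x x < 8 → x = 0 := by
    intro x hx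
    by_contra h
    exact absurd (hmin x h) (not_le.2 hx)
  -- (1)
  have step1 : Submodule.span ℤ {x : Fin 72 → ℤ | bf G x x = 8} = ⊤ := by
    by_contra hne
    have hexv : ∃ N : ℕ, ∃ v : Fin 72 → ℤ, v ∉ Submodule.span ℤ {x : Fin 72 → ℤ | bf G x x = 8} ∧
        bf G v v = N := by
      obtain ⟨v, hv⟩ : ∃ v, v ∉ Submodule.span ℤ {x : Fin 72 → ℤ | bf G x x = 8} := by
        by_contra hall
        push Not at hall
        exact hne (Submodule.eq_top_iff'.2 hall)
      have hv0 : v ≠ 0 := fun h => hv (h ▸ Submodule.zero_mem _)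
      have := hmin v hv0
      exact ⟨(bf G v v).toNat, v, hv, by omega⟩
    classical
    obtain ⟨v, hv, hvN⟩ := Nat.find_spec hexv
    have hmin' : ∀ y, y ∉ Submodule.span ℤ {x : Fin 72 → ℤ | bf G x x = 8} →
        bf G v v ≤ bf G y y := by
      intro y hy
      have hy0 : y ≠ 0 := fun h => hy (h ▸ Submodule.zero_mem _)
      have h1 := hmin y hy0
      have h2 := Nat.find_min' hexv ⟨y, hy, show bf G y y = ((bf G y y).toNat : ℤ) by omega⟩
      rw [hvN]
      omega
    have hv0 : v ≠ 0 := fun h => hv (h ▸ Submodule.zero_mem _)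
    have hS8 := hmin v hv0
    have hb : ∀ x ∈ F8, |bf G x v| ≤ 4 := by
      intro x hx
      rw [m8] at hx
      have hxs : x ∈ Submodule.span ℤ {x : Fin 72 → ℤ | bf G x x = 8} :=
        Submodule.subset_span hx
      have h1 := hmin' (v - x) fun h => hv (by
        have := Submodule.add_mem _ h hxs
        rwa [sub_add_cancel] at this)
      have h2 := hmin' (v + x) fun h => hv (by
        have := Submodule.sub_mem _ h hxs
        rwa [add_sub_cancel_right] at this)
      rw [bf_sub_sub hsym] at h1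
      rw [bf_add_add hsym] at h2
      rw [bf_symm hsym v x] at h1 h2
      rw [abs_le]
      constructor <;> linarith
    have hz : ∀ x ∈ F8, (576 * (bf G x v : ℝ) ^ 2 + (-820) * (bf G x v : ℝ) ^ 4 +
        273 * (bf G x v : ℝ) ^ 6 + (-30) * (bf G x v : ℝ) ^ 8 + 1 * (bf G x v : ℝ) ^ 10) = 0 := by
      intro x hx
      have h1 := abs_le.1 (hb x hx)
      obtain ⟨h2, h3⟩ := h1
      generalize bf G x v = t at h2 h3
      interval_cases t <;> norm_num
    have h1 := design_sum hD hU hmin m8' v 576 (-820) 273 (-30) 1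
    rw [Finset.sum_eq_zero hz] at h1
    have h2 := (mul_eq_zero.1 h1.symm).resolve_left c8.ne'
    obtain ⟨s, hs⟩ := hU.even v
    have hS : bf G v v = 8 ∨ 10 ≤ bf G v v := by omega
    rcases hS with hS | hS
    · rw [hS] at h2
      norm_num at h2
    · obtain ⟨u, hu⟩ : ∃ u : ℝ, (bf G v v : ℝ) = 10 + u := ⟨bf G v v - 10, by ring⟩
      have hu0 : 0 ≤ u := by
        have : (10 : ℝ) ≤ (bf G v v : ℝ) := by exact_mod_cast hS
        linarith
      rw [hu] at h2
      have h3 : 576 * (1 / 72) * (2 * ((4 : ℕ) : ℝ) * (10 + u)) +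
          (-820) * (1 / 1776) * (2 * ((4 : ℕ) : ℝ) * (10 + u)) ^ 2 +
          273 * (5 / 134976) * (2 * ((4 : ℕ) : ℝ) * (10 + u)) ^ 3 +
          (-30) * (35 / 10528128) * (2 * ((4 : ℕ) : ℝ) * (10 + u)) ^ 4 +
          1 * (7 / 18716672) * (2 * ((4 : ℕ) : ℝ) * (10 + u)) ^ 5 =
          90880 / 27417 + 46496 / 9139 * u + 88640 / 27417 * u ^ 2 + 29960 / 27417 * u ^ 3 +
          5600 / 27417 * u ^ 4 + 112 / 9139 * u ^ 5 := by
        push_cast
        ring
      rw [h3] at h2
      have h4 : 0 < 90880 / 27417 + 46496 / 9139 * u + 88640 / 27417 * u ^ 2 +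
          29960 / 27417 * u ^ 3 + 5600 / 27417 * u ^ 4 + 112 / 9139 * u ^ 5 := by positivity
      linarith
  -- (2)
  have hval8 : ∀ v ∈ F8, ∀ x ∈ F8, |bf G x v| ≤ 4 ∨ |bf G x v| = 8 := by
    intro v hv x hx
    rw [m8] at hv hx
    have h1 := bf_sub_sub hsym x v
    have h2 := bf_add_add hsym x v
    rw [hx, hv] at h1 h2
    by_cases h3 : x - v = 0
    · right
      rw [sub_eq_zero.1 h3, hv]; norm_num
    · by_cases h4 : x + v = 0
      · right
        rw [eq_neg_of_add_eq_zero_left h4, bf_neg_left, hv]; norm_num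
      · left
        have h5 := hmin _ h3
        have h6 := hmin _ h4
        rw [abs_le]
        constructor <;> omega
  have step2 : ∃ y, bf G y y = 12 := by
    by_contra hno
    push Not at hno
    have hx8' := (m8 x8).2 hx8
    have hz : ∀ x ∈ F8, (9216 * (bf G x x8 : ℝ) ^ 2 + (-10960) * (bf G x x8 : ℝ) ^ 4 +
        1833 * (bf G x x8 : ℝ) ^ 6 + (-90) * (bf G x x8 : ℝ) ^ 8 +
        1 * (bf G x x8 : ℝ) ^ 10) = 0 := by
      intro x hx
      have hn2 : |bf G x x8| ≠ 2 := by
        intro h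
        have hx' := (m8 x).1 hx
        rcases (abs_eq (by norm_num)).1 h with h1 | h1
        · refine hno (x - x8) ?_
          rw [bf_sub_sub hsym, hx', hx8, h1]; norm_num
        · refine hno (x + x8) ?_
          rw [bf_add_add hsym, hx', hx8, h1]; norm_num
      rcases hval8 x8 hx8' x hx with h1 | h1
      · obtain ⟨h2, h3⟩ := abs_le.1 h1
        generalize bf G x x8 = t at h2 h3 hn2
        interval_cases t <;> first | (norm_num; done) | (exfalso; apply hn2; norm_num; done)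
      · rcases (abs_eq (by norm_num)).1 h1 with h2 | h2 <;> rw [h2] <;> norm_num
    have h1 := design_sum hD hU hmin m8' x8 9216 (-10960) 1833 (-90) 1
    rw [Finset.sum_eq_zero hz, hx8] at h1
    have h2 := (mul_eq_zero.1 h1.symm).resolve_left c8.ne'
    norm_num at h2
  -- (3)
  have c12 : (0 : ℝ) < F12.card := by
    obtain ⟨y, hy⟩ := step2
    exact_mod_cast Finset.card_pos.2 ⟨y, (m12 y).2 hy⟩
  have step3 : ∀ v, bf G v v = 8 → ∃ x, bf G x x = 12 ∧ bf G x v = 4 := by
    intro v hv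
    by_contra hno
    push Not at hno
    have hz : ∀ x ∈ F12, 0 ≤ (900 * (bf G x v : ℝ) ^ 2 + (-1261) * (bf G x v : ℝ) ^ 4 +
        399 * (bf G x v : ℝ) ^ 6 + (-39) * (bf G x v : ℝ) ^ 8 +
        1 * (bf G x v : ℝ) ^ 10) := by
      intro x hx
      rw [m12] at hx
      have h1 := bf_sub_sub hsym x v
      have h2 := bf_add_add hsym x v
      rw [hx, hv] at h1 h2
      have h3 : x - v ≠ 0 := by
        intro h
        rw [sub_eq_zero.1 h, hv] at hx
        norm_num at hx
      have h4 : x + v ≠ 0 := by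
        intro h
        have h5 : v = -x := by rw [eq_neg_iff_add_eq_zero, add_comm]; exact h
        have h6 : bf G (-x) (-x) = bf G x x := by
          rw [bf_neg_left, bf_symm hsym x (-x), bf_neg_left, neg_neg]
        rw [h5, h6, hx] at hv
        norm_num at hv
      have h5 := hmin _ h3
      have h6 := hmin _ h4
      have hn1 := hno x hx
      have hn2 : bf G x v ≠ -4 := by
        intro h
        have h7 : bf G (-x) (-x) = 12 := by
          rw [bf_neg_left, bf_symm hsym x (-x), bf_neg_left, neg_neg, hx]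
        exact hno (-x) h7 (by rw [bf_neg_left, h]; norm_num)
      have h8 : bf G x v ≤ 6 := by omega
      have h9 : -6 ≤ bf G x v := by omega
      clear h1 h2
      generalize bf G x v = t at h8 h9 hn1 hn2
      interval_cases t <;> first | (norm_num; done) | (exfalso; apply hn1; norm_num; done) |
        (exfalso; apply hn2; norm_num; done)
    have h1 := design_sum hD hU hmin m12' v 900 (-1261) 399 (-39) 1
    have h2 := Finset.sum_nonneg hz
    rw [h1, hv] at h2
    norm_num at h2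
    nlinarith
  rw [eq_top_iff, ← step1, Submodule.span_le]
  intro v hv
  have hv' : bf G v v = 8 := hv
  obtain ⟨x, hx, hxv⟩ := step3 v hv'
  have h1 : bf G (v - x) (v - x) = 12 := by
    rw [bf_sub_sub hsym, hv', hx, bf_symm hsym v x, hxv]; norm_num
  have h2 : v = (v - x) + x := by rw [sub_add_cancel]
  rw [h2]
  exact Submodule.add_mem _ (Submodule.subset_span h1) (Submodule.subset_span hx)

end Pool.Agent.R396.TL
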