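import Pool.Agent.R396.TL.Stm
import Pool.Agent.R396.F.Th1a

set_option autoImplicit false

/-!
# J1: lower bound of the form and absolute convergence of theta series (helper746)
-/

namespace Pool.Agent.R396.TL

namespace SU

open Finset

noncomputable section

theorem cast_bf {n : ℕ} (G : Matrix (Fin n) (Fin n) ℤ) (x y : Fin n → ℤ) :
    ((bf G x y : ℤ) : ℝ) = bfR G (fun i => (x i : ℝ)) (fun i => (y i : ℝ)) := by
  simp [bf, bfR]

theorem bfR_smul {n : ℕ} (G : Matrix (Fin n) (Fin n) ℤ) (c : ℝ) (x : Fin n → ℝ) :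
    bfR G (c • x) (c • x) = c ^ 2 * bfR G x x := by
  unfold bfR
  rw [Finset.mul_sum]
  refine Finset.sum_congr rfl fun i _ => ?_
  rw [Finset.mul_sum]
  refine Finset.sum_congr rfl fun j _ => ?_
  simp only [Pi.smul_apply, smul_eq_mul]
  ring

theorem bfR_cont {n : ℕ} (G : Matrix (Fin n) (Fin n) ℤ) :
    Continuous fun x : Fin n → ℝ => bfR G x x := by
  unfold bfR
  fun_prop

theorem lowR {n : ℕ} (G : Matrix (Fin n) (Fin n) ℤ)
    (hpos : ∀ x : Fin n → ℝ, x ≠ 0 → 0 < bfR G x x) :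
    ∃ ε : ℝ, 0 < ε ∧ ∀ x : Fin n → ℝ, ε * ∑ i, x i ^ 2 ≤ bfR G x x := by
  rcases Nat.eq_zero_or_pos n with h0 | h0
  · subst h0
    refine ⟨1, one_pos, fun x => ?_⟩
    simp [bfR]
  · set S : Set (Fin n → ℝ) := {x | ∑ i, x i ^ 2 = 1} with hS
    have hcl : IsClosed S := isClosed_eq (by fun_prop) continuous_const
    have hbd : S ⊆ Metric.closedBall 0 1 := by
      intro x hx
      rw [mem_closedBall_zero_iff, pi_norm_le_iff_of_nonneg zero_le_one]
      intro i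
      have h1 : x i ^ 2 ≤ ∑ i, x i ^ 2 :=
        Finset.single_le_sum (f := fun i => x i ^ 2) (fun i _ => sq_nonneg _) (Finset.mem_univ i)
      have h2 : x i ^ 2 ≤ 1 := by
        have : ∑ i, x i ^ 2 = 1 := hx
        linarith
      rw [Real.norm_eq_abs]
      exact abs_le_one_iff_mul_self_le_one.2 (by nlinarith)
    have hcomp : IsCompact S := (isCompact_closedBall _ _).of_isClosed_subset hcl hbd
    have hne : S.Nonempty := by
      refine ⟨Pi.single ⟨0, h0⟩ 1, ?_⟩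
      show ∑ i, (Pi.single (M := fun _ : Fin n => ℝ) ⟨0, h0⟩ (1 : ℝ) : Fin n → ℝ) i ^ 2 = 1
      rw [Finset.sum_eq_single ⟨0, h0⟩]
      · simp
      · intro b _ hb
        simp [Pi.single_eq_of_ne hb]
      · simp
    obtain ⟨x0, hx0, hmin⟩ := hcomp.exists_isMinOn hne (bfR_cont G).continuousOn
    have hx0n : x0 ≠ 0 := by
      rintro rfl
      have : ∑ i, (0 : Fin n → ℝ) i ^ 2 = 1 := hx0
      simp at this
    refine ⟨bfR G x0 x0, hpos x0 hx0n, fun x => ?_⟩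
    by_cases hx : x = 0
    · subst hx
      simp [bfR]
    · set s := ∑ i, x i ^ 2 with hs
      have hs0 : 0 < s := by
        obtain ⟨i, hi⟩ := Function.ne_iff.1 hx
        refine Finset.sum_pos' (fun i _ => sq_nonneg _) ⟨i, Finset.mem_univ i, ?_⟩
        exact pow_pos_of_ne_zero_sq hi
      have hq := Real.sqrt_pos.2 hs0
      have hmem : (Real.sqrt s)⁻¹ • x ∈ S := by
        show ∑ i, ((Real.sqrt s)⁻¹ • x) i ^ 2 = 1
        have h1 : ∀ i, ((Real.sqrt s)⁻¹ • x) i ^ 2 = s⁻¹ * x i ^ 2 := by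
          intro i
          rw [Pi.smul_apply, smul_eq_mul, mul_pow, inv_pow, Real.sq_sqrt hs0.le]
        simp_rw [h1]
        rw [← Finset.mul_sum, ← hs, inv_mul_cancel₀ hs0.ne']
      have h2 : bfR G x0 x0 ≤ bfR G ((Real.sqrt s)⁻¹ • x) ((Real.sqrt s)⁻¹ • x) := hmin hmem
      rw [bfR_smul, inv_pow, Real.sq_sqrt hs0.le, inv_mul_eq_div, le_div_iff₀ hs0] at h2
      exact h2
where
  pow_pos_of_ne_zero_sq {a : ℝ} (h : a ≠ 0) : 0 < a ^ 2 := by positivity

theorem quad_bd {a b : ℝ} (ha : 0 < a) (t : ℝ) :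
    -(a * t ^ 2) + b * |t| ≤ (b + 2 * Real.pi) ^ 2 / (4 * a) - 2 * Real.pi * |t| := by
  have h1 : 0 ≤ (2 * a * |t| - (b + 2 * Real.pi)) ^ 2 / (4 * a) := by positivity
  have h2 : (2 * a * |t| - (b + 2 * Real.pi)) ^ 2 / (4 * a) =
      a * |t| ^ 2 - (b + 2 * Real.pi) * |t| + (b + 2 * Real.pi) ^ 2 / (4 * a) := by
    field_simp
    ring
  rw [h2, sq_abs] at h1
  linarith

/-- domination of Gaussians by exponentials -/
theorem gauss_dom {n : ℕ} {a b : ℝ} (ha : 0 < a) (x : Fin n → ℝ) :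
    -(a * ∑ i, x i ^ 2) + b * ∑ i, |x i| ≤
      n * ((b + 2 * Real.pi) ^ 2 / (4 * a)) - ∑ i, 2 * Real.pi * |x i| := by
  have h1 : -(a * ∑ i, x i ^ 2) + b * ∑ i, |x i| = ∑ i, (-(a * x i ^ 2) + b * |x i|) := by
    rw [Finset.sum_add_distrib, Finset.sum_neg_distrib, Finset.mul_sum, Finset.mul_sum]
  have h2 : (n : ℝ) * ((b + 2 * Real.pi) ^ 2 / (4 * a)) - ∑ i, 2 * Real.pi * |x i| =
      ∑ i, ((b + 2 * Real.pi) ^ 2 / (4 * a) - 2 * Real.pi * |x i|) := by
    rw [Finset.sum_sub_distrib, Finset.sum_const, Finset.card_univ, Fintype.card_fin, nsmul_eq_mul]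
  rw [h1, h2]
  exact Finset.sum_le_sum fun i _ => quad_bd ha (x i)

theorem gauss_dom_exp {n : ℕ} {a b : ℝ} (ha : 0 < a) (x : Fin n → ℝ) :
    Real.exp (-(a * ∑ i, x i ^ 2) + b * ∑ i, |x i|) ≤
      Real.exp (n * ((b + 2 * Real.pi) ^ 2 / (4 * a))) *
        ∏ i, Real.exp (-(2 * Real.pi * |x i|)) := by
  rw [← Real.exp_sum, ← Real.exp_add, Real.exp_le_exp, Finset.sum_neg_distrib]
  have := gauss_dom (n := n) (b := b) ha x
  linarith

/-- bound of the linear form -/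
theorem lin_bd {n : ℕ} (G : Matrix (Fin n) (Fin n) ℤ) (x v : Fin n → ℝ) :
    |bfR G x v| ≤ (∑ i, ∑ j, |(G i j : ℝ)| * |v j|) * ∑ i, |x i| := by
  unfold bfR
  calc |∑ i, ∑ j, x i * (G i j : ℝ) * v j|
      ≤ ∑ i, |∑ j, x i * (G i j : ℝ) * v j| := Finset.abs_sum_le_sum_abs _ _
    _ ≤ ∑ i, ∑ j, |x i * (G i j : ℝ) * v j| :=
        Finset.sum_le_sum fun i _ => Finset.abs_sum_le_sum_abs _ _
    _ = ∑ i, |x i| * ∑ j, |(G i j : ℝ)| * |v j| := by
        refine Finset.sum_congr rfl fun i _ => ?_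
        rw [Finset.mul_sum]
        refine Finset.sum_congr rfl fun j _ => ?_
        rw [abs_mul, abs_mul, mul_assoc]
    _ ≤ ∑ i, (∑ i, |x i|) * ∑ j, |(G i j : ℝ)| * |v j| := by
        refine Finset.sum_le_sum fun i _ => ?_
        refine mul_le_mul_of_nonneg_right ?_ (Finset.sum_nonneg fun j _ => by positivity)
        exact Finset.single_le_sum (f := fun i => |x i|) (fun i _ => abs_nonneg _)
          (Finset.mem_univ i)
    _ = _ := by rw [← Finset.mul_sum, mul_comm]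

end

end SU

open SU

theorem jobLow : JobLow := by
  intro n G hpos
  obtain ⟨ε, hε, h⟩ := lowR G hpos
  refine ⟨ε, hε, fun x => ?_⟩
  rw [cast_bf]
  exact h _

theorem jobSum : JobSum := by
  intro n G hpos v y R hy
  obtain ⟨ε, hε, h⟩ := lowR G hpos
  set C := ∑ i, ∑ j, |(G i j : ℝ)| * |(v j : ℝ)| with hC
  have ha : 0 < Real.pi * y * ε := by positivity
  have hs := (Pool.Agent.R396.F.summable_prod_exp n).mul_left
    (Real.exp (n * ((|R| * C + 2 * Real.pi) ^ 2 / (4 * (Real.pi * y * ε)))))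
  refine Summable.of_nonneg_of_le (fun x => (Real.exp_pos _).le) (fun x => ?_) hs
  refine le_trans ?_ (gauss_dom_exp ha (fun i => (x i : ℝ)))
  rw [Real.exp_le_exp, cast_bf, cast_bf]
  have h1 := h (fun i => (x i : ℝ))
  have h2 := lin_bd G (fun i => (x i : ℝ)) (fun i => (v i : ℝ))
  have h3 : R * |bfR G (fun i => (x i : ℝ)) (fun i => (v i : ℝ))| ≤
      |R| * C * ∑ i, |(x i : ℝ)| := by
    calc R * |bfR G (fun i => (x i : ℝ)) (fun i => (v i : ℝ))|
        ≤ |R| * |bfR G (fun i => (x i : ℝ)) (fun i => (v i : ℝ))| :=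
          mul_le_mul_of_nonneg_right (le_abs_self R) (abs_nonneg _)
      _ ≤ |R| * (C * ∑ i, |(x i : ℝ)|) := mul_le_mul_of_nonneg_left h2 (abs_nonneg _)
      _ = _ := by ring
  have h4 : Real.pi * y * (ε * ∑ i, (x i : ℝ) ^ 2) ≤
      Real.pi * y * bfR G (fun i => (x i : ℝ)) (fun i => (x i : ℝ)) :=
    mul_le_mul_of_nonneg_left h1 (by positivity)
  linarith

end Pool.Agent.R396.TL
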