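import Pool.Agent.R396.TL.PoiA
import Pool.Agent.R396.TL.Sum

set_option autoImplicit false

/-!
# J2: the inversion formula for theta series of even unimodular lattices (helper746)
-/

namespace Pool.Agent.R396.TL

open UpperHalfPlane hiding I

namespace PO

open Finset MeasureTheory Matrix Pool.Agent.H239R2.Flat SU
open scoped MatrixOrder ComplexOrder

noncomputable section

variable {n : ℕ}

/-- the Gaussian integral in linear coordinates of determinant `± 1` -/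
theorem gint (B : Matrix (Fin n) (Fin n) ℝ) (hdet : B.det ^ 2 = 1) {b : ℂ} (hb : 0 < b.re)
    (d : Fin n → ℂ) :
    ∫ u : Fin n → ℝ, Complex.exp (-b * ∑ j, (((B *ᵥ u) j : ℝ) : ℂ) ^ 2 +
      ∑ j, d j * (((B *ᵥ u) j : ℝ) : ℂ)) =
      (Real.pi / b) ^ ((n : ℂ) / 2) * Complex.exp ((∑ j, d j ^ 2) / (4 * b)) := by
  have hne : B.det ≠ 0 := by
    intro h
    rw [h] at hdet
    norm_num at hdet
  have habs : |B.det⁻¹| = 1 := by
    have h0 := sq_abs B.det
    have h1 : |B.det| = 1 := by nlinarith [abs_nonneg B.det]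
    rw [abs_inv, h1, inv_one]
  have h1 := Real.map_matrix_volume_pi_eq_smul_volume_pi hne
  rw [habs, ENNReal.ofReal_one, one_smul] at h1
  set f : (Fin n → ℝ) → ℂ := fun s =>
    Complex.exp (-b * ∑ j, ((s j : ℝ) : ℂ) ^ 2 + ∑ j, d j * ((s j : ℝ) : ℂ)) with hf
  have hfc : Continuous f := by
    rw [hf]
    fun_prop
  have hBc : Measurable (Matrix.toLin' B) := by
    have : Continuous (Matrix.toLin' B) := LinearMap.continuous_of_finiteDimensional _
    exact this.measurable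
  have h2 : ∫ u : Fin n → ℝ, f (Matrix.toLin' B u) = ∫ s, f s := by
    conv_rhs => rw [← h1]
    rw [integral_map hBc.aemeasurable hfc.aestronglyMeasurable]
  have h3 : ∫ u : Fin n → ℝ, Complex.exp (-b * ∑ j, (((B *ᵥ u) j : ℝ) : ℂ) ^ 2 +
      ∑ j, d j * (((B *ᵥ u) j : ℝ) : ℂ)) = ∫ s, f s := by
    rw [← h2]
    rfl
  rw [h3, hf, GaussianFourier.integral_cexp_neg_mul_sum_add hb d, Fintype.card_fin]

/-- factorization of the Gram matrix -/
theorem factor (G : Matrix (Fin n) (Fin n) ℤ) (hG : Uni G) :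
    ∃ B : Matrix (Fin n) (Fin n) ℝ, B.det ^ 2 = 1 ∧
      ∀ x y, bfR G x y = ∑ j, (B *ᵥ x) j * (B *ᵥ y) j := by
  set A : Matrix (Fin n) (Fin n) ℝ := G.map (Int.cast : ℤ → ℝ) with hA
  have hbf : ∀ x y : Fin n → ℝ, bfR G x y = x ⬝ᵥ (A *ᵥ y) := by
    intro x y
    unfold bfR dotProduct mulVec dotProduct
    refine Finset.sum_congr rfl fun i _ => ?_
    rw [Finset.mul_sum]
    refine Finset.sum_congr rfl fun j _ => ?_
    exact mul_assoc _ _ _
  have hps : A.PosSemidef := by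
    refine Matrix.PosSemidef.of_dotProduct_mulVec_nonneg ?_ ?_
    · ext i j
      rw [Matrix.conjTranspose_apply, hA, Matrix.map_apply, Matrix.map_apply, hG.symm j i]
      simp
    · intro x
      have h1 : star x = x := by
        funext i
        simp
      rw [h1, ← hbf]
      by_cases hx : x = 0
      · subst hx
        simp [bfR]
      · exact (hG.pos x hx).le
  obtain ⟨B, hB⟩ := CStarAlgebra.nonneg_iff_eq_star_mul_self.mp hps.nonneg
  have hB' : A = Bᵀ * B := by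
    rw [hB, Matrix.star_eq_conjTranspose, Matrix.conjTranspose_eq_transpose_of_trivial]
  refine ⟨B, ?_, ?_⟩
  · have h1 : ((G.det : ℤ) : ℝ) = A.det := by
      have := (Int.castRingHom ℝ).map_det G
      simpa using this
    rw [hG.det, hB', Matrix.det_mul, Matrix.det_transpose] at h1
    rw [sq, ← h1]
    simp
  · intro x y
    rw [hbf, hB', ← Matrix.mulVec_mulVec, Matrix.dotProduct_mulVec, Matrix.vecMul_transpose]
    rfl

/-- the summand of the theta series as a function on `ℝ^n` -/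
def Fu (G : Matrix (Fin n) (Fin n) ℤ) (v : Fin n → ℤ) (τ z : ℂ) (u : Fin n → ℝ) : ℂ :=
  Complex.exp (Real.pi * Complex.I * τ * ((bfR G u u : ℝ) : ℂ) +
    2 * Real.pi * Complex.I * z * ((bfR G u (fun i => (v i : ℝ)) : ℝ) : ℂ))

theorem Fu_int (G : Matrix (Fin n) (Fin n) ℤ) (v : Fin n → ℤ) (τ z : ℂ) (x : Fin n → ℤ) :
    Fu G v τ z (fun i => (x i : ℝ)) =
      Complex.exp (Real.pi * Complex.I * τ * bf G x x + 2 * Real.pi * Complex.I * z * bf G x v) := by
  unfold Fu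
  rw [← cast_bf, ← cast_bf]
  norm_cast

theorem Fu_cont (G : Matrix (Fin n) (Fin n) ℤ) (v : Fin n → ℤ) (τ z : ℂ) :
    Continuous (Fu G v τ z) := by
  unfold Fu
  have h1 : Continuous fun u : Fin n → ℝ => bfR G u (fun i => (v i : ℝ)) := by
    unfold bfR
    fun_prop
  have h2 := bfR_cont G
  fun_prop

theorem Fu_norm (G : Matrix (Fin n) (Fin n) ℤ) (v : Fin n → ℤ) (τ z : ℂ) (u : Fin n → ℝ) :
    ‖Fu G v τ z u‖ = Real.exp (-(Real.pi * τ.im * bfR G u u) -
      2 * Real.pi * z.im * bfR G u (fun i => (v i : ℝ))) := by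
  unfold Fu
  rw [Complex.norm_exp]
  congr 1
  simp
  ring

theorem Fu_bd (G : Matrix (Fin n) (Fin n) ℤ) (hG : Uni G) (v : Fin n → ℤ) (τ : ℍ) (z : ℂ) :
    ∃ C : ℝ, 0 ≤ C ∧ ∀ u, ‖Fu G v τ z u‖ ≤ C * dom u := by
  obtain ⟨ε, hε, h⟩ := lowR G hG.pos
  have him : 0 < τ.im := τ.im_pos
  have ha : 0 < Real.pi * τ.im * ε := by
    have := Real.pi_pos
    positivity
  set C := ∑ i, ∑ j, |(G i j : ℝ)| * |(v j : ℝ)| with hC
  set b := 2 * Real.pi * |z.im| * C with hb
  refine ⟨Real.exp (n * ((b + 2 * Real.pi) ^ 2 / (4 * (Real.pi * τ.im * ε)))),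
    (Real.exp_pos _).le, fun u => ?_⟩
  refine le_trans ?_ (gauss_dom_exp ha u)
  rw [Fu_norm, Real.exp_le_exp]
  have h1 := h u
  have h2 := lin_bd G u (fun i => (v i : ℝ))
  have h3 : -(2 * Real.pi * z.im * bfR G u (fun i => (v i : ℝ))) ≤ b * ∑ i, |u i| := by
    calc -(2 * Real.pi * z.im * bfR G u (fun i => (v i : ℝ)))
        ≤ |2 * Real.pi * z.im * bfR G u (fun i => (v i : ℝ))| := neg_le_abs _
      _ = 2 * Real.pi * |z.im| * |bfR G u (fun i => (v i : ℝ))| := by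
          rw [abs_mul, abs_mul, abs_of_pos (by positivity : (0 : ℝ) < 2 * Real.pi)]
      _ ≤ 2 * Real.pi * |z.im| * (C * ∑ i, |u i|) :=
          mul_le_mul_of_nonneg_left h2 (by positivity)
      _ = _ := by rw [hb]; ring
  have h4 : Real.pi * τ.im * (ε * ∑ i, u i ^ 2) ≤ Real.pi * τ.im * bfR G u u :=
    mul_le_mul_of_nonneg_left h1 (by positivity)
  have h5 : (τ : ℂ).im = τ.im := rfl
  rw [h5]
  linarith

/-- the Fourier transform of the summand -/
theorem Fu_four (G : Matrix (Fin n) (Fin n) ℤ) (hG : Uni G) (v w : Fin n → ℤ) (τ : ℍ) (z : ℂ) :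
    ∫ u : Fin n → ℝ, Fu G v τ z u * ch (-(∑ i, ((∑ j, G i j * w j : ℤ) : ℝ) * u i)) =
      (Real.pi / (-(Real.pi * Complex.I * τ))) ^ ((n : ℂ) / 2) *
        (Complex.exp (-(Real.pi * Complex.I * z ^ 2 * bf G v v / τ)) *
          Fu G v (-1 / (τ : ℂ)) (z / τ) (fun i => (w i : ℝ))) := by
  obtain ⟨B, hdet, hB⟩ := factor G hG
  set b : ℂ := -(Real.pi * Complex.I * τ) with hb
  have hbre : 0 < b.re := by
    have h1 : b.re = Real.pi * τ.im := by
      rw [hb]
      simp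
    rw [h1]
    exact mul_pos Real.pi_pos τ.im_pos
  have hτ : (τ : ℂ) ≠ 0 := τ.ne_zero
  set V := B *ᵥ (fun i => (v i : ℝ)) with hV
  set W := B *ᵥ (fun i => (w i : ℝ)) with hW
  set d : Fin n → ℂ := fun j => 2 * Real.pi * Complex.I * (z * (V j : ℂ) - (W j : ℂ)) with hd
  have h1 : ∀ u : Fin n → ℝ, Fu G v τ z u * ch (-(∑ i, ((∑ j, G i j * w j : ℤ) : ℝ) * u i)) =
      Complex.exp (-b * ∑ j, (((B *ᵥ u) j : ℝ) : ℂ) ^ 2 +
        ∑ j, d j * (((B *ᵥ u) j : ℝ) : ℂ)) := by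
    intro u
    have h2 : (∑ i, ((∑ j, G i j * w j : ℤ) : ℝ) * u i) = bfR G u (fun i => (w i : ℝ)) := by
      unfold bfR
      refine Finset.sum_congr rfl fun i _ => ?_
      push_cast
      rw [Finset.sum_mul]
      refine Finset.sum_congr rfl fun j _ => ?_
      ring
    rw [h2]
    unfold Fu ch
    rw [← Complex.exp_add]
    congr 1
    rw [hB, hB, hB, ← hV, ← hW]
    push_cast
    simp only [hd, hb, Finset.mul_sum]
    rw [← Finset.sum_neg_distrib, Finset.mul_sum, ← Finset.sum_add_distrib,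
      ← Finset.sum_add_distrib, ← Finset.sum_add_distrib]
    refine Finset.sum_congr rfl fun j _ => ?_
    ring
  simp_rw [h1]
  rw [gint B hdet hbre d]
  congr 1
  rw [Fu, ← Complex.exp_add]
  congr 1
  have h3 : ((bf G v v : ℤ) : ℂ) = ∑ j, (V j : ℂ) ^ 2 := by
    have h4 := cast_bf G v v
    rw [hB] at h4
    have h5 : ((bf G v v : ℤ) : ℂ) = (((bf G v v : ℤ) : ℝ) : ℂ) := by norm_cast
    rw [h5, h4]
    push_cast
    refine Finset.sum_congr rfl fun j _ => ?_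
    rw [hV]
    ring
  rw [h3, hB, hB, ← hV, ← hW]
  have hpi : (Real.pi : ℂ) ≠ 0 := by exact_mod_cast Real.pi_ne_zero
  have h6 : (∑ j, d j ^ 2) / (4 * b) = ∑ j, (-(Real.pi * Complex.I / τ) * (z * V j - W j) ^ 2) := by
    rw [Finset.sum_div]
    refine Finset.sum_congr rfl fun j _ => ?_
    simp only [hd, hb]
    field_simp
    ring
  rw [h6]
  push_cast
  have h7 : Real.pi * Complex.I * z ^ 2 * (∑ j, (V j : ℂ) ^ 2) / (τ : ℂ) =
      ∑ j, Real.pi * Complex.I * z ^ 2 * (V j : ℂ) ^ 2 / τ := by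
    rw [Finset.mul_sum, Finset.sum_div]
  rw [h7, Finset.mul_sum, Finset.mul_sum, ← Finset.sum_neg_distrib,
    ← Finset.sum_add_distrib, ← Finset.sum_add_distrib]
  refine Finset.sum_congr rfl fun j _ => ?_
  field_simp
  ring

/-- the bijection `w ↦ G w` of `ℤ^n` -/
def eqG (G : Matrix (Fin n) (Fin n) ℤ) (hG : G.det = 1) : (Fin n → ℤ) ≃ (Fin n → ℤ) where
  toFun w := G *ᵥ w
  invFun w := G⁻¹ *ᵥ w
  left_inv w := by
    show G⁻¹ *ᵥ (G *ᵥ w) = w
    rw [Matrix.mulVec_mulVec, Matrix.nonsing_inv_mul _ (by rw [hG]; exact isUnit_one),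
      Matrix.one_mulVec]
  right_inv w := by
    show G *ᵥ (G⁻¹ *ᵥ w) = w
    rw [Matrix.mulVec_mulVec, Matrix.mul_nonsing_inv _ (by rw [hG]; exact isUnit_one),
      Matrix.one_mulVec]

theorem Fu_summable (G : Matrix (Fin n) (Fin n) ℤ) (hG : Uni G) (v : Fin n → ℤ) (τ : ℍ) (z : ℂ) :
    Summable fun x : Fin n → ℤ => Fu G v τ z (fun i => (x i : ℝ)) := by
  obtain ⟨C, hC0, hC⟩ := Fu_bd G hG v τ z
  refine Summable.of_norm_bounded
    ((Pool.Agent.R396.F.summable_prod_exp n).mul_left C) fun x => ?_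
  exact hC _

/-- The inversion formula in general rank. -/
theorem inversion (G : Matrix (Fin n) (Fin n) ℤ) (hG : Uni G) (v : Fin n → ℤ) (τ : ℍ) (z : ℂ) :
    Th G v τ z = (Real.pi / (-(Real.pi * Complex.I * τ))) ^ ((n : ℂ) / 2) *
        (Complex.exp (-(Real.pi * Complex.I * z ^ 2 * bf G v v / τ)) *
          Th G v (-1 / (τ : ℂ)) (z / τ)) := by
  obtain ⟨C, hC0, hC⟩ := Fu_bd G hG v τ z
  set K : ℂ := (Real.pi / (-(Real.pi * Complex.I * τ))) ^ ((n : ℂ) / 2) with hK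
  set Q : ℂ := Complex.exp (-(Real.pi * Complex.I * z ^ 2 * bf G v v / τ)) with hQ
  have hτ' : ((-1 / (τ : ℂ)) : ℂ) = ((ModularGroup.S • τ : ℍ) : ℂ) := by
    rw [UpperHalfPlane.modular_S_smul]
    show -1 / (τ : ℂ) = (-(τ : ℂ))⁻¹
    rw [neg_div, one_div, inv_neg]
  have hco : ∀ w : Fin n → ℤ, ∫ u : Fin n → ℝ, Fu G v τ z u *
      ch (-(∑ i, ((eqG G hG.det w) i : ℝ) * u i)) = K * (Q *
        Fu G v (-1 / (τ : ℂ)) (z / τ) (fun i => (w i : ℝ))) := by
    intro w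
    rw [← Fu_four G hG v w τ z]
    rfl
  have hsw : Summable fun w : Fin n → ℤ => K * (Q *
        Fu G v (-1 / (τ : ℂ)) (z / τ) (fun i => (w i : ℝ))) := by
    rw [hτ']
    exact ((Fu_summable G hG v _ _).mul_left _).mul_left _
  have hs : Summable fun y : Fin n → ℤ =>
      ∫ x : Fin n → ℝ, Fu G v τ z x * ch (-(∑ i, (y i : ℝ) * x i)) := by
    rw [← (eqG G hG.det).summable_iff]
    refine hsw.congr fun w => ?_
    rw [← hco w]
    rfl
  have h1 := poisson (Fu_cont G v τ z) hC0 hC hs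
  have h2 : Th G v τ z = ∑' x : Fin n → ℤ, Fu G v τ z (fun i => (x i : ℝ)) := by
    unfold Th
    exact tsum_congr fun x => (Fu_int G v τ z x).symm
  have h3 : Th G v (-1 / (τ : ℂ)) (z / τ) =
      ∑' x : Fin n → ℤ, Fu G v (-1 / (τ : ℂ)) (z / τ) (fun i => (x i : ℝ)) := by
    unfold Th
    exact tsum_congr fun x => (Fu_int G v _ _ x).symm
  rw [h2, h1, ← (eqG G hG.det).tsum_eq, h3, ← tsum_mul_left, ← tsum_mul_left]
  exact tsum_congr hco

end

end PO

open PO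

theorem jobTheta : JobTheta := by
  intro m G hG v τ z
  have hτ : (τ : ℂ) ≠ 0 := τ.ne_zero
  have hpi : (Real.pi : ℂ) ≠ 0 := by exact_mod_cast Real.pi_ne_zero
  have h1 := inversion G hG v τ z
  have h2 : ((Real.pi : ℂ) / (-(Real.pi * Complex.I * τ))) ^ (((8 * m : ℕ) : ℂ) / 2) =
      ((τ : ℂ) ^ (4 * m))⁻¹ := by
    have h3 : (((8 * m : ℕ) : ℂ) / 2) = ((4 * m : ℕ) : ℂ) := by
      push_cast
      ring
    have h4 : ((Real.pi : ℂ) / (-(Real.pi * Complex.I * τ))) = Complex.I * (τ : ℂ)⁻¹ := by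
      field_simp
      rw [Complex.I_sq]
    rw [h3, Complex.cpow_natCast, h4, mul_pow, pow_mul, Complex.I_pow_four, one_pow, one_mul,
      inv_pow]
  rw [h2] at h1
  rw [h1, ← mul_assoc, ← mul_assoc]
  have h5 : (τ : ℂ) ^ (4 * m) * Complex.exp (Real.pi * Complex.I * z ^ 2 * bf G v v / τ) *
      ((τ : ℂ) ^ (4 * m))⁻¹ * Complex.exp (-(Real.pi * Complex.I * z ^ 2 * bf G v v / τ)) = 1 := by
    rw [mul_right_comm ((τ : ℂ) ^ (4 * m)), mul_inv_cancel₀ (pow_ne_zero _ hτ), one_mul,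
      ← Complex.exp_add, add_neg_cancel, Complex.exp_zero]
  rw [← mul_assoc] at *
  rw [h5, one_mul]

end Pool.Agent.R396.TL
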