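import Pool.Agent.H239R2.Flat.COEF
import Pool.Agent.H239R2.Flat.LIFT
import Pool.Agent.R396.F.Th1a

set_option autoImplicit false

/-!
# Poisson summation in `n` variables for rapidly decreasing functions (helper746)
-/

namespace Pool.Agent.R396.TL.PO

open Finset MeasureTheory Pool.Agent.H239R2.Flat

noncomputable section

/-- the dominating function -/
def dom {n : ℕ} (x : Fin n → ℝ) : ℝ := ∏ i, Real.exp (-(2 * Real.pi * |x i|))

theorem dom_pos {n : ℕ} (x : Fin n → ℝ) : 0 < dom x :=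
  Finset.prod_pos fun _ _ => Real.exp_pos _

theorem dom_cont {n : ℕ} : Continuous (dom (n := n)) := by
  unfold dom
  fun_prop

theorem integrable_exp_abs : Integrable fun t : ℝ => Real.exp (-(2 * Real.pi * |t|)) := by
  have h2 : (0 : ℝ) < 2 * Real.pi := by positivity
  have h1 : IntegrableOn (fun t : ℝ => Real.exp (-(2 * Real.pi * |t|))) (Set.Ioi 0) := by
    refine (integrableOn_exp_mul_Ioi (a := -(2 * Real.pi)) (by linarith) 0).congr_fun ?_
      measurableSet_Ioi
    intro t ht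
    have ht' : (0 : ℝ) < t := ht
    show Real.exp (-(2 * Real.pi) * t) = Real.exp (-(2 * Real.pi * |t|))
    rw [abs_of_pos ht']
    congr 1
    ring
  have h3 : IntegrableOn (fun t : ℝ => Real.exp (-(2 * Real.pi * |t|))) (Set.Iic 0) := by
    refine (integrableOn_exp_mul_Iic (a := (2 * Real.pi)) h2 0).congr_fun ?_
      measurableSet_Iic
    intro t ht
    have ht' : t ≤ 0 := ht
    show Real.exp ((2 * Real.pi) * t) = Real.exp (-(2 * Real.pi * |t|))
    rw [abs_of_nonpos ht']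
    congr 1
    ring
  rw [← integrableOn_univ, ← Set.Iic_union_Ioi (a := (0 : ℝ))]
  exact h3.union h1

theorem dom_int {n : ℕ} : Integrable (dom (n := n)) := by
  unfold dom
  exact Integrable.fintype_prod (f := fun (_ : Fin n) (t : ℝ) => Real.exp (-(2 * Real.pi * |t|)))
    fun _ => integrable_exp_abs

/-- translation of the dominating function -/
theorem dom_sub {n : ℕ} {R : ℝ} (x : Fin n → ℝ) (hx : ∀ i, |x i| ≤ R) (z : Fin n → ℤ) :
    dom (fun i => x i - z i) ≤ Real.exp (n * (2 * Real.pi * R)) *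
      ∏ i, Real.exp (-(2 * Real.pi * |(z i : ℝ)|)) := by
  unfold dom
  have h1 : Real.exp (n * (2 * Real.pi * R)) = ∏ _i : Fin n, Real.exp (2 * Real.pi * R) := by
    rw [Finset.prod_const, Finset.card_univ, Fintype.card_fin, ← Real.exp_nat_mul]
  rw [h1, ← Finset.prod_mul_distrib]
  refine Finset.prod_le_prod (fun i _ => (Real.exp_pos _).le) fun i _ => ?_
  rw [← Real.exp_add, Real.exp_le_exp]
  have h2 : |(z i : ℝ)| ≤ |x i - z i| + |x i| := by
    have := abs_sub_abs_le_abs_sub (z i : ℝ) (x i)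
    rw [abs_sub_comm] at this
    linarith
  have h3 := hx i
  have hp := Real.pi_pos
  nlinarith

variable {n : ℕ} {F : (Fin n → ℝ) → ℂ} {C : ℝ}

theorem per_bd (hC0 : 0 ≤ C) (hC : ∀ x, ‖F x‖ ≤ C * dom x) {R : ℝ} (x : Fin n → ℝ)
    (hx : ∀ i, |x i| ≤ R) (z : Fin n → ℤ) :
    ‖F (fun i => x i - z i)‖ ≤ C * Real.exp (n * (2 * Real.pi * R)) *
      ∏ i, Real.exp (-(2 * Real.pi * |(z i : ℝ)|)) := by
  refine (hC _).trans ?_
  rw [mul_assoc]
  exact mul_le_mul_of_nonneg_left (dom_sub x hx z) hC0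

theorem per_cont (hF : Continuous F) (hC0 : 0 ≤ C) (hC : ∀ x, ‖F x‖ ≤ C * dom x) :
    Continuous fun x : Fin n → ℝ => ∑' z : Fin n → ℤ, F (fun i => x i - z i) := by
  rw [continuous_iff_continuousAt]
  intro x₀
  have hball : Metric.ball x₀ 1 ∈ nhds x₀ := Metric.ball_mem_nhds _ one_pos
  refine ContinuousOn.continuousAt (s := Metric.ball x₀ 1) ?_ hball
  refine continuousOn_tsum (u := fun z : Fin n → ℤ =>
    C * Real.exp (n * (2 * Real.pi * (‖x₀‖ + 1))) *
      ∏ i, Real.exp (-(2 * Real.pi * |(z i : ℝ)|))) ?_ ?_ ?_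
  · intro z
    refine Continuous.continuousOn ?_
    exact hF.comp (continuous_pi fun i => (continuous_apply i).sub continuous_const)
  · exact (Pool.Agent.R396.F.summable_prod_exp n).mul_left _
  · intro z x hx
    refine per_bd hC0 hC x (fun i => ?_) z
    have h1 : ‖x‖ ≤ ‖x₀‖ + 1 := by
      have h4 : dist x x₀ < 1 := hx
      rw [dist_eq_norm] at h4
      have h5 : ‖x‖ ≤ ‖x₀‖ + ‖x - x₀‖ := norm_le_insert' x x₀
      linarith
    have h2 := norm_le_pi_norm x i
    rw [Real.norm_eq_abs] at h2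
    linarith

/-- the periodization on the torus -/
theorem lift_ex (hF : Continuous F) (hC0 : 0 ≤ C) (hC : ∀ x, ‖F x‖ ≤ C * dom x) :
    ∃ Φ : C(UnitAddTorus (Fin n), ℂ), ∀ x : Fin n → ℝ,
      Φ (fun i => (x i : UnitAddCircle)) = ∑' z : Fin n → ℤ, F (fun i => x i - z i) := by
  set g : C(Fin n → ℝ, ℂ) := ⟨_, per_cont hF hC0 hC⟩ with hg
  have hfac : Function.FactorsThrough g (LIFT_q n) := by
    intro x y hxy
    have h1 : ∀ i, ∃ m : ℤ, x i = y i + m := by
      intro i
      have h2 : (x i : UnitAddCircle) = (y i : UnitAddCircle) := congrFun hxy i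
      have h3 : ((x i - y i : ℝ) : UnitAddCircle) = 0 := by
        rw [AddCircle.coe_sub, h2, sub_self]
      rw [AddCircle.coe_eq_zero_iff] at h3
      obtain ⟨m, hm⟩ := h3
      refine ⟨m, ?_⟩
      rw [zsmul_eq_mul, mul_one] at hm
      linarith
    choose w hw using h1
    have h4 : x = fun i => y i + (w i : ℝ) := funext hw
    show (∑' z : Fin n → ℤ, F (fun i => x i - z i)) = ∑' z : Fin n → ℤ, F (fun i => y i - z i)
    rw [h4]
    exact LIFT_per n F y w
  refine ⟨(LIFT_q_quot n).lift g hfac, fun x => ?_⟩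
  have h5 := (LIFT_q_quot n).lift_comp g hfac
  have h6 := congrArg (fun f : C(Fin n → ℝ, ℂ) => f x) h5
  exact h6

theorem coef (hF : Continuous F) (hC : ∀ x, ‖F x‖ ≤ C * dom x)
    (Φ : C(UnitAddTorus (Fin n), ℂ)) (hΦ : ∀ x : Fin n → ℝ,
      Φ (fun i => (x i : UnitAddCircle)) = ∑' z : Fin n → ℤ, F (fun i => x i - z i))
    (y : Fin n → ℤ) : UnitAddTorus.mFourierCoeff Φ y
      = ∫ x : Fin n → ℝ, F x * ch (-(∑ i, (y i : ℝ) * x i)) := by
  set G : (Fin n → ℝ) → ℂ := fun x => F x * ch (-(∑ i, (y i : ℝ) * x i)) with hG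
  have hGc : Continuous G := by
    rw [hG]
    exact hF.mul (COEF_ch_continuous.comp (by fun_prop))
  have hch : ∀ t : ℝ, ‖ch t‖ = 1 := by
    intro t
    unfold ch
    rw [show (2 * Real.pi * Complex.I * (t : ℂ)) = ((2 * Real.pi * t : ℝ) : ℂ) * Complex.I by
      push_cast; ring]
    exact Complex.norm_exp_ofReal_mul_I _
  have hGn : ∀ x, ‖G x‖ ≤ C * dom x := by
    intro x
    rw [hG]
    show ‖F x * ch _‖ ≤ _
    rw [norm_mul, hch, mul_one]
    exact hC x
  have hGi : Integrable G := (dom_int.const_mul C).mono' hGc.aestronglyMeasurable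
    (Filter.Eventually.of_forall hGn)
  have hsum := COEF_unfold n G hGi
  have hsumN := COEF_unfold n (fun x => ((‖G x‖ : ℝ) : ℂ)) hGi.norm.ofReal
  have hsn : Summable fun z : Fin n → ℤ => ∫ x in COEF_cube n, ‖G (fun i => x i - z i)‖ := by
    have h1 := hsumN.summable
    have h2 : (fun z : Fin n → ℤ => ∫ x in COEF_cube n, ((‖G (fun i => x i - z i)‖ : ℝ) : ℂ)) =
        fun z => ((∫ x in COEF_cube n, ‖G (fun i => x i - z i)‖ : ℝ) : ℂ) := by
      funext z
      exact integral_ofReal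
    rw [h2] at h1
    exact Complex.summable_ofReal.1 h1
  have hI : ∀ z : Fin n → ℤ, Integrable (fun x => G (fun i => x i - z i))
      (volume.restrict (COEF_cube n)) := by
    intro z
    exact (hGi.comp_sub_right (fun i => (z i : ℝ))).integrableOn
  have h3 := hasSum_integral_of_summable_integral_norm hI hsn
  show _ = ∫ x, G x
  rw [hsum.unique h3]
  rw [UnitAddTorus.mFourierCoeff_eq_integral _ _ (fun _ => 0)]
  apply setIntegral_congr_fun (COEF_cube_meas n)
  intro x hx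
  show UnitAddTorus.mFourier (-y) (fun i => (x i : UnitAddCircle)) •
    Φ (fun i => (x i : UnitAddCircle)) = ∑' z : Fin n → ℤ, G (fun i => x i - z i)
  rw [COEF_mFourier, hΦ, smul_eq_mul, ← tsum_mul_left]
  apply tsum_congr
  intro z
  rw [hG]
  show _ = F (fun i => x i - z i) * ch (-(∑ i, (y i : ℝ) * (x i - z i)))
  have h2 : -(∑ i, (y i : ℝ) * (x i - z i)) = -(∑ i, (y i : ℝ) * x i) +
      ((∑ i, y i * z i : ℤ) : ℝ) := by
    push_cast
    rw [← Finset.sum_neg_distrib, ← Finset.sum_neg_distrib, ← Finset.sum_add_distrib]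
    apply Finset.sum_congr rfl
    intro i _
    ring
  rw [h2, COEF_ch_add, COEF_ch_int, mul_one, mul_comm]

/-- Poisson summation. -/
theorem poisson (hF : Continuous F) (hC0 : 0 ≤ C) (hC : ∀ x, ‖F x‖ ≤ C * dom x)
    (hs : Summable fun y : Fin n → ℤ => ∫ x : Fin n → ℝ, F x * ch (-(∑ i, (y i : ℝ) * x i))) :
    ∑' z : Fin n → ℤ, F (fun i => (z i : ℝ)) =
      ∑' y : Fin n → ℤ, ∫ x : Fin n → ℝ, F x * ch (-(∑ i, (y i : ℝ) * x i)) := by
  obtain ⟨Φ, hΦ⟩ := lift_ex hF hC0 hC
  have hco := coef hF hC Φ hΦ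
  have hsum : Summable (UnitAddTorus.mFourierCoeff Φ) := by
    have h3 : UnitAddTorus.mFourierCoeff Φ = fun y : Fin n → ℤ =>
        ∫ x : Fin n → ℝ, F x * ch (-(∑ i, (y i : ℝ) * x i)) := funext hco
    rw [h3]
    exact hs
  have h3 := UnitAddTorus.hasSum_mFourier_series_apply_of_summable hsum
    (fun i => (((0 : Fin n → ℝ) i : ℝ) : UnitAddCircle))
  rw [hΦ] at h3
  have h4 : ∑' z : Fin n → ℤ, F (fun i => (0 : Fin n → ℝ) i - z i) =
      ∑' z : Fin n → ℤ, F (fun i => (z i : ℝ)) := by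
    rw [← (Equiv.neg (Fin n → ℤ)).tsum_eq fun z : Fin n → ℤ => F (fun i => (z i : ℝ))]
    refine tsum_congr fun z => ?_
    congr 1
    funext i
    simp
  rw [h4] at h3
  rw [← h3.tsum_eq]
  refine tsum_congr fun y => ?_
  rw [hco, ← hco]
  have h5 : UnitAddTorus.mFourier y (fun i => (((0 : Fin n → ℝ) i : ℝ) : UnitAddCircle)) = 1 := by
    have h6 : (fun i => (((0 : Fin n → ℝ) i : ℝ) : UnitAddCircle)) = (0 : UnitAddTorus (Fin n)) := by
      funext i
      simp
    rw [h6]
    show ∏ i, fourier (y i) ((0 : UnitAddTorus (Fin n)) i) = 1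
    refine Finset.prod_eq_one fun i _ => ?_
    simp
  rw [h5, smul_eq_mul, mul_one]

end

end Pool.Agent.R396.TL.PO
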