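import Pool.Agent.R396.TL.Stm

set_option autoImplicit false

/-!
# J5: from a Type II lattice to its Gram matrix (helper746)
-/

namespace Pool.Agent.R396.TL

namespace RE

open Finset

noncomputable section

variable {n : ℕ}


/-- the parametrization of the lattice -/
def par (b : Fin n → EuclideanSpace ℝ (Fin n)) : (Fin n → ℤ) →ₗ[ℤ] EuclideanSpace ℝ (Fin n) where
  toFun x := ∑ i, x i • b i
  map_add' x y := by
    simp only [Pi.add_apply, add_smul, Finset.sum_add_distrib]
  map_smul' c x := by
    simp only [Pi.smul_apply, smul_eq_mul, mul_smul, RingHom.id_apply, Finset.smul_sum]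

theorem par_apply (b : Fin n → EuclideanSpace ℝ (Fin n)) (x : Fin n → ℤ) :
    par b x = ∑ i, x i • b i := rfl

theorem inner_sum (b : Fin n → EuclideanSpace ℝ (Fin n)) (G : Matrix (Fin n) (Fin n) ℤ)
    (hG : ∀ i j, inner ℝ (b i) (b j) = (G i j : ℝ)) (x y : Fin n → ℝ) :
    inner ℝ (∑ i, x i • b i) (∑ i, y i • b i) = bfR G x y := by
  rw [sum_inner]
  unfold bfR
  refine Finset.sum_congr rfl fun i _ => ?_
  rw [_root_.inner_sum]
  refine Finset.sum_congr rfl fun j _ => ?_
  rw [real_inner_smul_left, real_inner_smul_right, hG]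
  ring

theorem inner_par (b : Fin n → EuclideanSpace ℝ (Fin n)) (G : Matrix (Fin n) (Fin n) ℤ)
    (hG : ∀ i j, inner ℝ (b i) (b j) = (G i j : ℝ)) (x y : Fin n → ℤ) :
    inner ℝ (par b x) (par b y) = ((bf G x y : ℤ) : ℝ) := by
  have h1 : ∀ z : Fin n → ℤ, par b z = ∑ i, (z i : ℝ) • b i := by
    intro z
    rw [par_apply]
    refine Finset.sum_congr rfl fun i _ => ?_
    rw [Int.cast_smul_eq_zsmul]
  rw [h1, h1, inner_sum b G hG]
  simp [bf, bfR]

theorem range_par (b : Fin n → EuclideanSpace ℝ (Fin n)) :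
    LinearMap.range (par b) = Submodule.span ℤ (Set.range b) := by
  apply le_antisymm
  · rintro _ ⟨x, rfl⟩
    rw [par_apply]
    exact Submodule.sum_mem _ fun i _ => Submodule.smul_mem _ _
      (Submodule.subset_span ⟨i, rfl⟩)
  · rw [Submodule.span_le]
    rintro _ ⟨i, rfl⟩
    refine ⟨Pi.single i 1, ?_⟩
    rw [par_apply, Finset.sum_eq_single i]
    · simp
    · intro j _ hj
      simp [Pi.single_eq_of_ne hj]
    · simp

theorem main (L : Submodule ℤ (EuclideanSpace ℝ (Fin n))) (hL : IsTypeII L) :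
    ∃ (G : Matrix (Fin n) (Fin n) ℤ) (b : Fin n → EuclideanSpace ℝ (Fin n)), Uni G ∧
      LinearMap.range (par b) = L ∧
      ∀ x y, inner ℝ (par b x) (par b y) = ((bf G x y : ℤ) : ℝ) := by
  classical
  obtain ⟨b, hb⟩ := hL.basis
  have hmem : ∀ i, b i ∈ L := fun i => by
    rw [hb]; exact Submodule.subset_span ⟨i, rfl⟩
  have hint : ∀ i j, ∃ m : ℤ, inner ℝ (b i) (b j) = (m : ℝ) := fun i j =>
    (hL.dual (b j)).1 (hmem j) (b i) (hmem i)
  choose g hg using hint
  set G : Matrix (Fin n) (Fin n) ℤ := Matrix.of g with hGd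
  have hG : ∀ i j, inner ℝ (b i) (b j) = (G i j : ℝ) := hg
  have hran : LinearMap.range (par b) = L := by rw [range_par, hb]
  refine ⟨G, b, ⟨?_, ?_, ?_, ?_⟩, hran, inner_par b G hG⟩
  · intro i j
    have h1 := hG i j
    rw [real_inner_comm, hG j i] at h1
    exact_mod_cast h1.symm
  · intro x hx
    rw [← inner_sum b G hG]
    rw [real_inner_self_pos]
    intro h0
    apply hx
    funext i
    exact (Fintype.linearIndependent_iff.1 b.linearIndependent) x h0 i
  · -- dual basis
    have hd : ∀ j : Fin n, ∃ c : Fin n → ℤ, ∀ i, inner ℝ (b i) (par b c) = if i = j then 1 else 0 := by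
      intro j
      set φ : StrongDual ℝ (EuclideanSpace ℝ (Fin n)) := LinearMap.toContinuousLinearMap (b.coord j)
        with hφ
      set w := (InnerProductSpace.toDual ℝ (EuclideanSpace ℝ (Fin n))).symm φ with hw
      have hwi : ∀ x, inner ℝ x w = b.repr x j := by
        intro x
        rw [real_inner_comm, hw, InnerProductSpace.toDual_symm_apply]
        rfl
      have hwL : w ∈ L := by
        rw [hL.dual]
        intro x hx
        rw [← hran] at hx
        obtain ⟨c, rfl⟩ := hx
        refine ⟨c j, ?_⟩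
        rw [hwi, par_apply, map_sum, Finset.sum_apply']
        rw [Finset.sum_eq_single j]
        · rw [map_zsmul]
          simp
        · intro i _ hij
          rw [map_zsmul]
          simp [Finsupp.single_eq_of_ne hij.symm]
        · simp
      rw [← hran] at hwL
      obtain ⟨c, hc⟩ := hwL
      refine ⟨c, fun i => ?_⟩
      rw [hc, hwi, b.repr_self, Finsupp.single_apply]
    choose c hc using hd
    have hGH : G * Matrix.of (fun k j => c j k) = 1 := by
      ext i j
      rw [Matrix.mul_apply, Matrix.one_apply]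
      have h1 := hc j i
      have h2 : inner ℝ (b i) (par b (c j)) = ((∑ k, G i k * c j k : ℤ) : ℝ) := by
        rw [par_apply, _root_.inner_sum]
        push_cast
        refine Finset.sum_congr rfl fun k _ => ?_
        rw [← Int.cast_smul_eq_zsmul ℝ, real_inner_smul_right, hG]
        ring
      rw [h2] at h1
      have h3 : (∑ k, G i k * c j k : ℤ) = if i = j then 1 else 0 := by
        split_ifs at h1 ⊢
        · exact_mod_cast h1
        · exact_mod_cast h1
      exact h3
    have hdet : G.det * (Matrix.of (fun k j => c j k)).det = 1 := by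
      rw [← Matrix.det_mul, hGH, Matrix.det_one]
    have hnn : (0 : ℝ) ≤ (G.det : ℝ) := by
      have h1 : (G.map (Int.cast : ℤ → ℝ)) = Matrix.gram ℝ b := by
        ext i j
        rw [Matrix.gram_apply, hG]
        rfl
      have h2 : ((G.det : ℤ) : ℝ) = (G.map (Int.cast : ℤ → ℝ)).det := by
        have := (Int.castRingHom ℝ).map_det G
        simpa using this
      rw [h2, h1]
      exact (Matrix.posSemidef_gram ℝ (fun i => b i)).det_nonneg
    have hnn' : 0 ≤ G.det := by exact_mod_cast hnn
    rcases Int.isUnit_iff.1 (IsUnit.of_mul_eq_one _ hdet) with h | h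
    · exact h
    · omega
  · intro x
    have h1 : par b x ∈ L := by rw [← hran]; exact ⟨x, rfl⟩
    obtain ⟨m, hm⟩ := hL.even _ h1
    rw [inner_par b G hG] at hm
    have h2 : bf G x x = 2 * m := by exact_mod_cast hm
    rw [h2]
    exact even_two_mul m

theorem par_eq_zero {b : Fin n → EuclideanSpace ℝ (Fin n)} {G : Matrix (Fin n) (Fin n) ℤ}
    (hU : Uni G) (hb : ∀ x y, inner ℝ (par b x) (par b y) = ((bf G x y : ℤ) : ℝ))
    {x : Fin n → ℤ} (hx : x ≠ 0) : par b x ≠ 0 := by
  intro h0
  have h1 := hb x x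
  rw [h0, inner_zero_left] at h1
  have h2 : (fun i => (x i : ℝ)) ≠ 0 := by
    intro h
    apply hx
    funext i
    have := congrFun h i
    simpa using this
  have h3 := hU.pos _ h2
  have h4 : bfR G (fun i => (x i : ℝ)) (fun i => (x i : ℝ)) = ((bf G x x : ℤ) : ℝ) := by
    simp [bf, bfR]
  rw [h4, ← h1] at h3
  exact lt_irrefl _ h3

end

end RE

open RE

theorem jobRed : JobRed := by
  intro hgen L hL
  obtain ⟨G, b, hU, hran, hin⟩ := main L hL.typeII
  have hmem : ∀ x, par b x ∈ L := fun x => by rw [← hran]; exact ⟨x, rfl⟩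
  have h8 : ∀ x : Fin 72 → ℤ, x ≠ 0 → 8 ≤ bf G x x := by
    intro x hx
    have h1 := hL.min _ (hmem x) (par_eq_zero hU hin hx)
    rw [hin] at h1
    exact_mod_cast h1
  have hat : ∃ x : Fin 72 → ℤ, bf G x x = 8 := by
    obtain ⟨y, hy, hy8⟩ := hL.attained
    rw [← hran] at hy
    obtain ⟨x, rfl⟩ := hy
    rw [hin] at hy8
    exact ⟨x, by exact_mod_cast hy8⟩
  have htop := hgen G hU h8 hat
  have himg : {x | x ∈ L ∧ inner ℝ x x = (12 : ℝ)} = (par b) '' {x : Fin 72 → ℤ | bf G x x = 12} := by
    apply Set.Subset.antisymm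
    · rintro y ⟨hy, hy12⟩
      rw [← hran] at hy
      obtain ⟨x, rfl⟩ := hy
      rw [hin] at hy12
      refine ⟨x, ?_, rfl⟩
      show bf G x x = 12
      exact_mod_cast hy12
    · rintro _ ⟨x, hx, rfl⟩
      refine ⟨hmem x, ?_⟩
      rw [hin]
      have : bf G x x = 12 := hx
      rw [this]
      norm_num
  rw [himg, Submodule.span_image, htop, Submodule.map_top, hran]

end Pool.Agent.R396.TL
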