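import Pool.Agent.R396.TL.Des
import Pool.Agent.R396.WJ.Ana

set_option autoImplicit false

/-!
# The Taylor coefficients of the Jacobi theta series are modular forms
-/

namespace Pool.Agent.R396.TL

open UpperHalfPlane hiding I
open Real EisensteinSeries ModularForm MatrixGroups
open scoped MatrixGroups ModularForm
open Pool.Agent.R396.QM Pool.Agent.R322.QD Pool.Agent.R396.XQ.KO

noncomputable section

namespace TA

variable {n : ℕ}

/-- the theta series with the weight `(x, v) ^ i` -/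
def chi (G : Matrix (Fin n) (Fin n) ℤ) (v : Fin n → ℤ) (i : ℕ) (τ : ℍ) : ℂ :=
  ∑' x : Fin n → ℤ, (bf G x v : ℂ) ^ i * Complex.exp (π * Complex.I * τ * bf G x x)

theorem norm_term (G : Matrix (Fin n) (Fin n) ℤ) (τ : ℍ) (x : Fin n → ℤ) :
    ‖Complex.exp (π * Complex.I * τ * bf G x x)‖ = Real.exp (-(π * τ.im * bf G x x)) := by
  rw [Complex.norm_exp]
  congr 1
  have : (π * Complex.I * (τ : ℂ) * (bf G x x : ℂ)) =
      ((π * (bf G x x : ℝ) : ℝ) : ℂ) * (Complex.I * (τ : ℂ)) := by push_cast; ring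
  rw [this, Complex.re_ofReal_mul]
  simp
  ring

theorem summ_chi (hS : JobSum) {G : Matrix (Fin n) (Fin n) ℤ}
    (hp : ∀ x : Fin n → ℝ, x ≠ 0 → 0 < bfR G x x) (v : Fin n → ℤ) (i : ℕ) (τ : ℍ) :
    Summable fun x : Fin n → ℤ => (bf G x v : ℂ) ^ i * Complex.exp (π * Complex.I * τ * bf G x x) := by
  have h := (hS n G hp v τ.im 1 τ.im_pos).mul_left (i.factorial : ℝ)
  refine Summable.of_norm_bounded h fun x => ?_
  rw [norm_mul, norm_term, norm_pow]
  have h1 : ‖(bf G x v : ℂ)‖ = |(bf G x v : ℝ)| := by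
    rw [← Complex.ofReal_intCast, Complex.norm_real, Real.norm_eq_abs]
  rw [h1, one_mul, Real.exp_add]
  have h2 : |(bf G x v : ℝ)| ^ i / (i.factorial : ℝ) ≤ Real.exp |(bf G x v : ℝ)| :=
    Real.pow_div_factorial_le_exp _ (abs_nonneg _) i
  have h3 : (0 : ℝ) < (i.factorial : ℝ) := by exact_mod_cast i.factorial_pos
  rw [div_le_iff₀ h3] at h2
  have h4 := Real.exp_pos (-(π * τ.im * bf G x x))
  nlinarith

theorem bf_nonneg {G : Matrix (Fin n) (Fin n) ℤ}
    (hp : ∀ x : Fin n → ℝ, x ≠ 0 → 0 < bfR G x x) (x : Fin n → ℤ) : 0 ≤ bf G x x := by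
  have h : ((bf G x x : ℤ) : ℝ) = bfR G (fun i => (x i : ℝ)) (fun i => (x i : ℝ)) := by
    unfold bf bfR
    push_cast
    rfl
  by_cases h0 : (fun i => (x i : ℝ)) = 0
  · have : x = 0 := by
      funext i
      have := congrFun h0 i
      simpa using this
    subst this
    unfold bf
    simp
  · have := hp _ h0
    rw [← h] at this
    exact_mod_cast this.le

theorem hasQ_chi (hS : JobSum) {G : Matrix (Fin n) (Fin n) ℤ}
    (hp : ∀ x : Fin n → ℝ, x ≠ 0 → 0 < bfR G x x) (he : ∀ x : Fin n → ℤ, Even (bf G x x))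
    (v : Fin n → ℤ) (i : ℕ) :
    HasQ (chi G v i) (fun k => (mom G v i k : ℂ)) := by
  intro τ
  set q := Function.Periodic.qParam 1 (τ : ℂ) with hq
  set g : ℕ × (Fin n → ℤ) → ℂ := fun p =>
    if bf G p.2 p.2 = 2 * p.1 then (bf G p.2 v : ℂ) ^ i * q ^ p.1 else 0 with hg
  set ι : (Fin n → ℤ) → ℕ × (Fin n → ℤ) := fun x => ((bf G x x / 2).toNat, x) with hι
  have hinj : Function.Injective ι := fun x y h => (Prod.ext_iff.1 h).2
  have hk : ∀ x : Fin n → ℤ, bf G x x = 2 * ((bf G x x / 2).toNat : ℤ) := by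
    intro x
    obtain ⟨t, ht⟩ := he x
    have h0 := bf_nonneg hp x
    omega
  have hcomp : g ∘ ι = fun x => (bf G x v : ℂ) ^ i * Complex.exp (π * Complex.I * τ * bf G x x) := by
    funext x
    simp only [hg, hι, Function.comp_apply]
    rw [if_pos (hk x)]
    congr 1
    rw [hq, Pool.Agent.R396.XQ.AS.qp_eq, ← Complex.exp_nat_mul]
    congr 1
    have : (bf G x x : ℂ) = 2 * (((bf G x x / 2).toNat : ℕ) : ℂ) := by
      have := hk x
      exact_mod_cast congrArg (Int.cast : ℤ → ℂ) this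
    rw [this]
    ring
  have hs : HasSum g (chi G v i τ) := by
    rw [← hinj.hasSum_iff, hcomp]
    · exact (summ_chi hS hp v i τ).hasSum
    · intro p hp'
      simp only [hg]
      rw [if_neg]
      intro h
      apply hp'
      refine ⟨p.2, ?_⟩
      simp only [hι]
      ext1
      · simp only
        omega
      · rfl
  refine hs.prod_fiberwise fun k => ?_
  have hx : Summable fun x => g (k, x) := hs.summable.prod_factor k
  have hqne : q ^ k ≠ 0 := by
    apply pow_ne_zero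
    rw [hq, Pool.Agent.R396.XQ.AS.qp_eq]
    exact Complex.exp_ne_zero _
  have e1 : (fun x => g (k, x)) = fun x => ((if bf G x x = 2 * k then (bf G x v : ℝ) ^ i else 0 : ℝ) : ℂ) * q ^ k := by
    funext x
    simp only [hg]
    split_ifs
    · push_cast; ring
    · simp
  rw [e1] at hx ⊢
  have h5 : Summable fun x : Fin n → ℤ =>
      ((if bf G x x = 2 * k then (bf G x v : ℝ) ^ i else 0 : ℝ) : ℂ) := by
    have := hx.mul_right (q ^ k)⁻¹
    refine this.congr fun x => ?_
    rw [mul_assoc, mul_inv_cancel₀ hqne, mul_one]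
  have h6 := h5.hasSum.mul_right (q ^ k)
  rw [← Complex.ofReal_tsum] at h6
  exact h6

/-- expansion in powers of `z ^ 2` -/
theorem hasSum_Th (hS : JobSum) {G : Matrix (Fin n) (Fin n) ℤ}
    (hp : ∀ x : Fin n → ℝ, x ≠ 0 → 0 < bfR G x x) (v : Fin n → ℤ) (τ : ℍ) (z : ℂ) :
    HasSum (fun j : ℕ => chi G v (2 * j) τ / ((2 * j).factorial : ℂ) * (2 * π * Complex.I * z) ^ (2 * j))
      (Th G v τ z) := by
  set e : (Fin n → ℤ) → ℂ := fun x => Complex.exp (π * Complex.I * τ * bf G x x) with he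
  set t : (Fin n → ℤ) → ℂ := fun x => (bf G x v : ℂ) with ht
  set u : ℂ := 2 * π * Complex.I * z with hu
  set F : (Fin n → ℤ) × ℕ → ℂ := fun p => e p.1 * ((u * t p.1) ^ (2 * p.2) / ((2 * p.2).factorial : ℂ))
    with hF
  have hrow : ∀ x, HasSum (fun j : ℕ => F (x, j)) (e x * Complex.cosh (u * t x)) := fun x =>
    (Complex.hasSum_cosh (u * t x)).mul_left (e x)
  have hnt : ∀ x, ‖t x‖ = |(bf G x v : ℝ)| := by
    intro x
    rw [ht]
    simp only
    rw [← Complex.ofReal_intCast, Complex.norm_real, Real.norm_eq_abs]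
  have hsumm : Summable F := by
    refine Summable.of_norm ?_
    rw [summable_prod_of_nonneg (fun p => norm_nonneg _)]
    have hrown : ∀ x, HasSum (fun j : ℕ => ‖F (x, j)‖) (‖e x‖ * Real.cosh (‖u‖ * ‖t x‖)) := by
      intro x
      have h1 := (Real.hasSum_cosh (‖u‖ * ‖t x‖)).mul_left ‖e x‖
      have h2 : (fun j : ℕ => ‖F (x, j)‖) = fun j : ℕ => ‖e x‖ * ((‖u‖ * ‖t x‖) ^ (2 * j) /
          ((2 * j).factorial : ℝ)) := by
        funext j
        rw [hF]
        simp only
        rw [norm_mul, norm_div, norm_pow, norm_mul, Complex.norm_natCast]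
      rw [h2]
      exact h1
    refine ⟨fun x => (hrown x).summable, ?_⟩
    have h3 : (fun x => ∑' j : ℕ, ‖F (x, j)‖) = fun x => ‖e x‖ * Real.cosh (‖u‖ * ‖t x‖) :=
      funext fun x => (hrown x).tsum_eq
    rw [h3]
    refine Summable.of_nonneg_of_le (fun x => by positivity) (fun x => ?_)
      (hS n G hp v τ.im ‖u‖ τ.im_pos)
    rw [he]
    simp only
    rw [norm_term, hnt, Real.exp_add]
    refine mul_le_mul_of_nonneg_left ?_ (Real.exp_pos _).le
    rw [Real.cosh_eq]
    have h4 : Real.exp (-(‖u‖ * |(bf G x v : ℝ)|)) ≤ Real.exp (‖u‖ * |(bf G x v : ℝ)|) := by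
      apply Real.exp_le_exp.2
      have : 0 ≤ ‖u‖ * |(bf G x v : ℝ)| := by positivity
      linarith
    linarith
  have htot := hsumm.hasSum
  have h1 : HasSum (fun x => e x * Complex.cosh (u * t x)) (∑' p, F p) := htot.prod_fiberwise hrow
  -- the total is the theta series
  have h2 : HasSum (fun x => e x * Complex.exp (u * t x)) (Th G v τ z) := by
    have h3 : Summable fun x => e x * Complex.exp (u * t x) := by
      refine Summable.of_norm_bounded (hS n G hp v τ.im ‖u‖ τ.im_pos) fun x => ?_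
      rw [norm_mul, he]
      simp only
      rw [norm_term, Complex.norm_exp, Real.exp_add]
      refine mul_le_mul_of_nonneg_left ?_ (Real.exp_pos _).le
      apply Real.exp_le_exp.2
      rw [← hnt, ← norm_mul]
      exact Complex.re_le_norm _
    have h4 : Th G v τ z = ∑' x, e x * Complex.exp (u * t x) := by
      unfold Th
      refine tsum_congr fun x => ?_
      rw [he, ← Complex.exp_add]
    rw [h4]
    exact h3.hasSum
  have h3 : HasSum (fun x => e x * Complex.exp (-(u * t x))) (Th G v τ z) := by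
    have h4 := (Equiv.neg (Fin n → ℤ)).hasSum_iff.2 h2
    have h5 : ((fun x => e x * Complex.exp (u * t x)) ∘ (Equiv.neg (Fin n → ℤ))) =
        fun x => e x * Complex.exp (-(u * t x)) := by
      funext x
      have a1 : bf G (-x) (-x) = bf G x x := by
        unfold bf; simp
      have a2 : bf G (-x) v = - bf G x v := by
        unfold bf
        simp only [Pi.neg_apply, neg_mul, Finset.sum_neg_distrib]
      simp only [Function.comp_apply, Equiv.neg_apply, he, ht]
      rw [a1, a2]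
      push_cast
      congr 2
      ring
    rw [h5] at h4
    exact h4
  have h6 : HasSum (fun x => e x * Complex.cosh (u * t x)) (Th G v τ z) := by
    have h7 := (h2.add h3).mul_left (1 / 2 : ℂ)
    have h8 : (fun x => (1 / 2 : ℂ) * (e x * Complex.exp (u * t x) + e x * Complex.exp (-(u * t x)))) =
        fun x => e x * Complex.cosh (u * t x) := by
      funext x
      rw [Complex.cosh]
      ring
    have h9 : (1 / 2 : ℂ) * (Th G v τ z + Th G v τ z) = Th G v τ z := by ring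
    rw [h8, h9] at h7
    exact h7
  have h9 : ∑' p, F p = Th G v τ z := h1.unique h6
  rw [h9] at htot
  have h10 := (Equiv.prodComm ℕ (Fin n → ℤ)).hasSum_iff.2 htot
  refine h10.prod_fiberwise fun j => ?_
  have h11 := (summ_chi hS hp v (2 * j) τ).hasSum.mul_right (u ^ (2 * j) / ((2 * j).factorial : ℂ))
  have h12 : (fun x => (F ∘ (Equiv.prodComm ℕ (Fin n → ℤ))) (j, x)) = fun x =>
      (bf G x v : ℂ) ^ (2 * j) * Complex.exp (π * Complex.I * τ * bf G x x) *
        (u ^ (2 * j) / ((2 * j).factorial : ℂ)) := by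
    funext x
    simp only [Function.comp_apply, Equiv.prodComm_apply, Prod.swap, hF, he, ht]
    rw [mul_pow]
    ring
  rw [h12]
  have h13 : chi G v (2 * j) τ / ((2 * j).factorial : ℂ) * u ^ (2 * j) =
      (∑' x : Fin n → ℤ, (bf G x v : ℂ) ^ (2 * j) * Complex.exp (π * Complex.I * τ * bf G x x)) *
        (u ^ (2 * j) / ((2 * j).factorial : ℂ)) := by
    unfold chi
    ring
  rw [h13]
  exact h11

/-- uniqueness of the coefficients of an everywhere convergent power series -/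
theorem ps_unique {a b : ℕ → ℂ} (h : ∀ Z : ℂ, ∃ s : ℂ, HasSum (fun j => a j * Z ^ j) s ∧
    HasSum (fun j => b j * Z ^ j) s) : a = b := by
  choose F h1 h2 using h
  exact HasQ.unique (F := fun τ : ℍ => F (Function.Periodic.qParam 1 (τ : ℂ)))
    (fun τ => h1 _) (fun τ => h2 _)

/-- the Taylor coefficients, corrected by `E2` -/
def Bt (G : Matrix (Fin n) (Fin n) ℤ) (v : Fin n → ℤ) (j : ℕ) (τ : ℍ) : ℂ :=
  ∑ l ∈ Finset.range (j + 1), ((-(bf G v v : ℂ) / 24) ^ l / (l.factorial : ℂ)) * E2 τ ^ l *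
    (1 / ((2 * (j - l)).factorial : ℂ) * chi G v (2 * (j - l)) τ)

theorem hasSum_Bt (hS : JobSum) {G : Matrix (Fin n) (Fin n) ℤ}
    (hp : ∀ x : Fin n → ℝ, x ≠ 0 → 0 < bfR G x x) (v : Fin n → ℤ) (τ : ℍ) (z : ℂ) :
    HasSum (fun j : ℕ => Bt G v j τ * ((2 * π * Complex.I * z) ^ 2) ^ j)
      (Complex.exp (-(bf G v v : ℂ) / 24 * E2 τ * (2 * π * Complex.I * z) ^ 2) * Th G v τ z) := by
  set Z : ℂ := (2 * π * Complex.I * z) ^ 2 with hZ
  set S : ℂ := (bf G v v : ℂ) with hSd
  have h1 := hasSum_Th hS hp v τ z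
  have e1 : (fun j : ℕ => chi G v (2 * j) τ / ((2 * j).factorial : ℂ) *
      (2 * π * Complex.I * z) ^ (2 * j)) = fun j : ℕ => chi G v (2 * j) τ /
      ((2 * j).factorial : ℂ) * Z ^ j := by
    funext j
    rw [pow_mul]
  rw [e1] at h1
  have h2 : HasSum (fun l : ℕ => (-S / 24 * E2 τ * Z) ^ l / (l.factorial : ℂ))
      (Complex.exp (-S / 24 * E2 τ * Z)) := by
    rw [Complex.exp_eq_exp_ℂ]
    exact NormedSpace.expSeries_div_hasSum_exp _
  have h3 := hasSum_sum_range_mul_of_summable_norm h2.summable.norm h1.summable.norm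
  rw [h2.tsum_eq, h1.tsum_eq] at h3
  have e2 : (fun j : ℕ => ∑ l ∈ Finset.range (j + 1), (-S / 24 * E2 τ * Z) ^ l / (l.factorial : ℂ) *
      (chi G v (2 * (j - l)) τ / ((2 * (j - l)).factorial : ℂ) * Z ^ (j - l))) =
      fun j : ℕ => Bt G v j τ * Z ^ j := by
    funext j
    unfold Bt
    rw [Finset.sum_mul]
    refine Finset.sum_congr rfl fun l hl => ?_
    rw [Finset.mem_range] at hl
    have : Z ^ j = Z ^ l * Z ^ (j - l) := by rw [← pow_add]; congr 1; omega
    rw [this, mul_pow, mul_pow]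
    ring
  rw [e2] at h3
  exact h3

/-- the transformation of the corrected Taylor coefficients -/
theorem Bt_S (hS : JobSum) (hT : JobTheta) {m : ℕ} {G : Matrix (Fin (8 * m)) (Fin (8 * m)) ℤ}
    (hG : Uni G) (v : Fin (8 * m) → ℤ) (j : ℕ) (τ : ℍ) :
    Bt G v j (ModularGroup.S • τ) = (τ : ℂ) ^ (4 * m + 2 * j) * Bt G v j τ := by
  have h0 : (τ : ℂ) ≠ 0 := ne_zero τ
  have hpi : (π : ℂ) ≠ 0 := by exact_mod_cast Real.pi_ne_zero
  have key : (fun j => Bt G v j (ModularGroup.S • τ) * ((τ : ℂ) ^ (2 * j))⁻¹) =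
      fun j => (τ : ℂ) ^ (4 * m) * Bt G v j τ := by
    apply ps_unique
    intro Z
    obtain ⟨r, hr⟩ : ∃ r : ℂ, r ^ 2 = Z := ⟨Z ^ (1 / 2 : ℂ), by
      rw [← Complex.cpow_nat_mul]; norm_num⟩
    set z : ℂ := r / (2 * π * Complex.I) with hz
    have hzZ : (2 * π * Complex.I * z) ^ 2 = Z := by
      rw [← hr, hz]
      congr 1
      have hpi2 : (2 * π * Complex.I : ℂ) ≠ 0 := Complex.two_pi_I_ne_zero
      field_simp
    have h1 := hasSum_Bt hS hG.pos v (ModularGroup.S • τ) (z / τ)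
    have h2 := (hasSum_Bt hS hG.pos v τ z).mul_left ((τ : ℂ) ^ (4 * m))
    refine ⟨(τ : ℂ) ^ (4 * m) * (Complex.exp (-(bf G v v : ℂ) / 24 * E2 τ * Z) * Th G v τ z),
      ?_, ?_⟩
    · have e1 : (fun j : ℕ => Bt G v j (ModularGroup.S • τ) *
          ((2 * π * Complex.I * (z / τ)) ^ 2) ^ j) =
          fun j : ℕ => Bt G v j (ModularGroup.S • τ) * ((τ : ℂ) ^ (2 * j))⁻¹ * Z ^ j := by
        funext j
        rw [← hzZ, pow_mul]
        have : (2 * π * Complex.I * (z / τ)) ^ 2 = (2 * π * Complex.I * z) ^ 2 * ((τ : ℂ) ^ 2)⁻¹ := by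
          field_simp
        rw [this, mul_pow, inv_pow]
        ring
      rw [e1] at h1
      have e2 : Complex.exp (-(bf G v v : ℂ) / 24 * E2 (ModularGroup.S • τ) *
          (2 * π * Complex.I * (z / τ)) ^ 2) * Th G v ((ModularGroup.S • τ : ℍ) : ℂ) (z / τ) =
          (τ : ℂ) ^ (4 * m) * (Complex.exp (-(bf G v v : ℂ) / 24 * E2 τ * Z) * Th G v τ z) := by
        rw [Pool.Agent.R396.WJ.S_smul_coe, hT m G hG v τ z, Pool.Agent.R396.WJ.E2_S, ← hzZ]
        have e3 : -(bf G v v : ℂ) / 24 * ((τ : ℂ) ^ 2 * E2 τ - 6 * Complex.I / π * τ) *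
            (2 * π * Complex.I * (z / τ)) ^ 2 =
            -(bf G v v : ℂ) / 24 * E2 τ * (2 * π * Complex.I * z) ^ 2 -
              π * Complex.I * z ^ 2 * bf G v v / τ := by
          field_simp
          have hI : Complex.I ^ 2 = -1 := Complex.I_sq
          ring_nf
          rw [hI]
          ring
        rw [e3, Complex.exp_sub]
        have := Complex.exp_ne_zero (π * Complex.I * z ^ 2 * bf G v v / τ)
        field_simp
      rw [← e2]
      exact h1
    · have e1 : (fun j : ℕ => (τ : ℂ) ^ (4 * m) * (Bt G v j τ * ((2 * π * Complex.I * z) ^ 2) ^ j)) =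
          fun j : ℕ => (τ : ℂ) ^ (4 * m) * Bt G v j τ * Z ^ j := by
        funext j
        rw [hzZ]; ring
      rw [e1, hzZ] at h2
      exact h2
  have h3 : Bt G v j (ModularGroup.S • τ) * ((τ : ℂ) ^ (2 * j))⁻¹ =
      (τ : ℂ) ^ (4 * m) * Bt G v j τ := congrFun key j
  have h4 : (τ : ℂ) ^ (2 * j) ≠ 0 := pow_ne_zero _ h0
  rw [pow_add]
  field_simp at h3
  rw [h3]
  ring

/-- the generating series of the moments -/
def Xs (G : Matrix (Fin n) (Fin n) ℤ) (v : Fin n → ℤ) (i : ℕ) : PowerSeries ℂ :=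
  PowerSeries.mk fun k => (mom G v (2 * i) k : ℂ)

theorem PS_pow {F : ℍ → ℂ} {A : PowerSeries ℂ} (hF : PS F A) (l : ℕ) :
    PS (fun τ => F τ ^ l) (A ^ l) := by
  induction l with
  | zero =>
    have h : PS (fun _ : ℍ => (1 : ℂ)) 1 := by
      intro τ
      have := hasSum_single (f := fun n : ℕ => (PowerSeries.coeff n (1 : PowerSeries ℂ)) *
        Function.Periodic.qParam 1 (τ : ℂ) ^ n) 0 (by
          intro n hn
          rw [PowerSeries.coeff_one, if_neg hn, zero_mul])
      simpa using this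
    simpa using h
  | succ l ih =>
    have := ih.mul hF
    simp only [pow_succ]
    exact this

theorem PS_sum {ι : Type} (s : Finset ι) {F : ι → ℍ → ℂ} {A : ι → PowerSeries ℂ}
    (h : ∀ i ∈ s, PS (F i) (A i)) : PS (fun τ => ∑ i ∈ s, F i τ) (∑ i ∈ s, A i) := by
  classical
  induction s using Finset.induction_on with
  | empty =>
    intro τ
    simp
  | insert a s ha ih =>
    have h1 := (h a (Finset.mem_insert_self a s)).add (ih fun i hi => h i (Finset.mem_insert_of_mem hi))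
    simp only [Finset.sum_insert ha]
    exact h1

theorem PS_Bt (hS : JobSum) {G : Matrix (Fin n) (Fin n) ℤ}
    (hp : ∀ x : Fin n → ℝ, x ≠ 0 → 0 < bfR G x x) (he : ∀ x : Fin n → ℤ, Even (bf G x x))
    (v : Fin n → ℤ) (j : ℕ) : PS (Bt G v j) (DE.comb (bf G v v : ℂ) (Xs G v) j) := by
  unfold Bt DE.comb
  refine PS_sum _ fun l _ => ?_
  have h1 : PS (chi G v (2 * (j - l))) (Xs G v (j - l)) := by
    have := hasQ_chi hS hp he v (2 * (j - l))
    unfold PS Xs
    simp only [PowerSeries.coeff_mk]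
    exact this
  have h2 := ((PS_pow ps_E2 l).cmul ((-(bf G v v : ℂ) / 24) ^ l / (l.factorial : ℂ))).mul
    (h1.cmul (1 / ((2 * (j - l)).factorial : ℂ)))
  exact h2

theorem form_Bt (hS : JobSum) (hT : JobTheta) {m : ℕ} {G : Matrix (Fin (8 * m)) (Fin (8 * m)) ℤ}
    (hG : Uni G) (v : Fin (8 * m) → ℤ) (j : ℕ) :
    ∃ f : ModularForm 𝒮ℒ ((4 * m + 2 * j : ℕ) : ℤ), PS f (DE.comb (bf G v v : ℂ) (Xs G v) j) := by
  have h1 := PS_Bt hS hG.pos hG.even v j
  have h2 : Bt G v j ∣[((4 * m + 2 * j : ℕ) : ℤ)] ModularGroup.S = Bt G v j := by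
    funext τ
    rw [SL_slash_apply, Bt_S hS hT hG v j τ, ModularGroup.denom_S]
    have h0 : (τ : ℂ) ≠ 0 := ne_zero τ
    rw [zpow_neg, zpow_natCast]
    have := pow_ne_zero (4 * m + 2 * j) h0
    field_simp
  obtain ⟨f, hf⟩ := HasQ.form h1 h2
  refine ⟨f, ?_⟩
  rw [hf]
  exact h1

/-- no vectors of small norm -/
theorem mom_zero {G : Matrix (Fin n) (Fin n) ℤ} (hmin : ∀ x : Fin n → ℤ, x ≠ 0 → 8 ≤ bf G x x)
    (v : Fin n → ℤ) (i k : ℕ) (hk : k ≤ 3) (h : k ≠ 0 ∨ i ≠ 0) : mom G v i k = 0 := by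
  unfold mom
  have : (fun x : Fin n → ℤ => if bf G x x = 2 * k then (bf G x v : ℝ) ^ i else 0) = fun _ => 0 := by
    funext x
    split_ifs with hx
    · have hx0 : x = 0 := by
        by_contra hne
        have := hmin x hne
        omega
      subst hx0
      have b0 : bf G 0 (0 : Fin n → ℤ) = 0 := by unfold bf; simp
      have bv : bf G 0 v = 0 := by unfold bf; simp
      rcases h with h | h
      · exfalso
        rw [b0] at hx
        omega
      · rw [bv]
        simp [h]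
    · rfl
  rw [this, tsum_zero]

end TA

theorem jobDesign (hS : JobSum) (hT : JobTheta) : JobDesign := by
  intro G hG hmin v j m hj hj5
  have hm : ∀ i : ℕ, i ≤ 5 → ∃ f : ModularForm 𝒮ℒ (36 + 2 * i : ℤ),
      PS f (DE.comb (bf G v v : ℂ) (TA.Xs G v) i) := by
    intro i _
    obtain ⟨f, hf⟩ := TA.form_Bt (m := 9) (G := G) hS hT hG v i
    exact ⟨f.mcast (by push_cast; ring), hf⟩
  have h := DE.design (bf G v v : ℂ) (TA.Xs G v) (by
    intro k hk1 hk3
    unfold TA.Xs
    rw [PowerSeries.coeff_mk, TA.mom_zero hmin v _ k hk3 (Or.inl (by omega))]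
    simp) (by
    intro i hi k hk3
    unfold TA.Xs
    rw [PowerSeries.coeff_mk, TA.mom_zero hmin v _ k hk3 (Or.inr (by omega))]
    simp) hm j hj5
  have h1 := congrArg (PowerSeries.coeff m) h
  unfold DE.Xp at h1
  rw [PowerSeries.coeff_C_mul, DE.coeff_th_iter] at h1
  unfold TA.Xs at h1
  rw [PowerSeries.coeff_mk, PowerSeries.coeff_mk] at h1
  have h2 : ((mom G v (2 * j) m : ℝ) : ℂ) =
      ((kap 72 j * (2 * m * bf G v v) ^ j * mom G v 0 m : ℝ) : ℂ) := by
    rw [h1]
    push_cast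
    simp only [mul_zero, mul_pow]
    ring
  exact_mod_cast h2

end

end Pool.Agent.R396.TL
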